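import Mathlib

/-!
# The extension property at a minimiser of a quadratic form on the simplex
-/

namespace Pool.Agent.Y781.DM

open Finset Matrix

variable {V : Type*} [Fintype V] [DecidableEq V]

/-- first order condition at a minimiser of a quadratic form on the standard simplex -/
theorem kkt (C : Matrix V V ℝ) (hC : C.transpose = C) (x : V → ℝ)
    (hx : x ∈ stdSimplex ℝ V) (hmin : ∀ z ∈ stdSimplex ℝ V, x ⬝ᵥ C *ᵥ x ≤ z ⬝ᵥ C *ᵥ z)
    (i j : V) (hi : 0 < x i) : (C *ᵥ x) i ≤ (C *ᵥ x) j := by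
  by_contra hlt
  push Not at hlt
  have hij : i ≠ j := fun h => by subst h; exact lt_irrefl _ hlt
  set δ : ℝ := (C *ᵥ x) i - (C *ᵥ x) j with hδ
  have hδpos : 0 < δ := by rw [hδ]; linarith
  set d : V → ℝ := Pi.single j 1 - Pi.single i 1 with hd
  have hquad : ∀ ε : ℝ, (x + ε • d) ⬝ᵥ C *ᵥ (x + ε • d) =
      x ⬝ᵥ C *ᵥ x + 2 * ε * (d ⬝ᵥ C *ᵥ x) + ε ^ 2 * (d ⬝ᵥ C *ᵥ d) := by
    intro ε
    have hsymm : x ⬝ᵥ C *ᵥ d = d ⬝ᵥ C *ᵥ x := by
      rw [Matrix.dotProduct_mulVec, ← Matrix.mulVec_transpose, hC, dotProduct_comm]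
    simp only [mulVec_add, mulVec_smul, add_dotProduct, dotProduct_add, smul_dotProduct,
      dotProduct_smul, smul_eq_mul, hsymm]
    ring
  have hd1 : d ⬝ᵥ C *ᵥ x = -δ := by
    rw [hd, sub_dotProduct, single_one_dotProduct, single_one_dotProduct, hδ]
    ring
  set K : ℝ := d ⬝ᵥ C *ᵥ d with hK
  set ε : ℝ := min (x i) (δ / (|K| + 1)) with hε
  have hεpos : 0 < ε := lt_min hi (by positivity)
  have hεx : ε ≤ x i := min_le_left _ _
  have hεK : ε * |K| ≤ δ := by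
    have h1 : ε ≤ δ / (|K| + 1) := min_le_right _ _
    have h2 : ε * (|K| + 1) ≤ δ := by
      rwa [le_div_iff₀ (by positivity)] at h1
    nlinarith [abs_nonneg K]
  have hmem : x + ε • d ∈ stdSimplex ℝ V := by
    refine ⟨fun v => ?_, ?_⟩
    · simp only [Pi.add_apply, Pi.smul_apply, smul_eq_mul, hd, Pi.sub_apply]
      by_cases hvi : v = i
      · subst hvi
        rw [Pi.single_eq_same, Pi.single_eq_of_ne hij]
        linarith
      · rw [Pi.single_eq_of_ne hvi]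
        have h1 : (0 : ℝ) ≤ (Pi.single j (1 : ℝ) : V → ℝ) v := by
          by_cases hvj : v = j
          · subst hvj; rw [Pi.single_eq_same]; exact zero_le_one
          · rw [Pi.single_eq_of_ne hvj]
        have h2 := hx.1 v
        have : 0 ≤ ε * ((Pi.single j (1 : ℝ) : V → ℝ) v - 0) := by
          apply mul_nonneg hεpos.le; linarith
        linarith
    · simp only [Pi.add_apply, Pi.smul_apply, smul_eq_mul, hd, Pi.sub_apply, sum_add_distrib,
        ← mul_sum, sum_sub_distrib]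
      have h1 : ∑ v, (Pi.single j (1 : ℝ) : V → ℝ) v = 1 := by simp
      have h2 : ∑ v, (Pi.single i (1 : ℝ) : V → ℝ) v = 1 := by simp
      rw [h1, h2, hx.2]; ring
  have h := hmin _ hmem
  rw [hquad, hd1] at h
  have h3 : ε ^ 2 * K ≤ ε * δ := by
    have : ε * (ε * K) ≤ ε * δ := by
      apply mul_le_mul_of_nonneg_left _ hεpos.le
      calc ε * K ≤ ε * |K| := mul_le_mul_of_nonneg_left (le_abs_self K) hεpos.le
        _ ≤ δ := hεK
    nlinarith
  nlinarith [mul_pos hεpos hδpos]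

/-- **Extension property.** If a quadratic form with symmetric matrix takes a value below `g` on the
simplex, then there is a nonempty `S` such that for every nonzero nonnegative weight `y` on `S` some
`j ∈ S` has average cost below `g`. -/
theorem exists_core (c : V → V → ℝ) (hsymm : ∀ u v, c u v = c v u) (g : ℝ)
    (x : V → ℝ) (hx : x ∈ stdSimplex ℝ V) (hQ : ∑ u, ∑ v, x u * x v * c u v < g) :
    ∃ S : Finset V, S.Nonempty ∧ ∀ y : V → ℝ, (∀ v, v ∉ S → y v = 0) → 0 < ∑ v, y v →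
      ∃ j ∈ S, ∑ i, y i * c i j < (∑ i, y i) * g := by
  classical
  set C : Matrix V V ℝ := Matrix.of c with hCdef
  have hC : C.transpose = C := by
    ext u v; simp [hCdef, hsymm u v]
  have hform : ∀ z : V → ℝ, z ⬝ᵥ C *ᵥ z = ∑ u, ∑ v, z u * z v * c u v := by
    intro z
    simp only [dotProduct, mulVec, hCdef, Matrix.of_apply, mul_sum]
    refine sum_congr rfl fun u _ => sum_congr rfl fun v _ => by ring
  have hcomp : IsCompact (stdSimplex ℝ V) := isCompact_stdSimplex ℝ V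
  have hcont : Continuous fun z : V → ℝ => z ⬝ᵥ C *ᵥ z := by
    simp only [dotProduct, mulVec]
    fun_prop
  obtain ⟨x₀, hx₀, hmin⟩ := hcomp.exists_isMinOn ⟨x, hx⟩ hcont.continuousOn
  have hmin' : ∀ z ∈ stdSimplex ℝ V, x₀ ⬝ᵥ C *ᵥ x₀ ≤ z ⬝ᵥ C *ᵥ z := fun z hz => hmin hz
  set m : ℝ := x₀ ⬝ᵥ C *ᵥ x₀ with hm
  have hmg : m < g := lt_of_le_of_lt (hmin' x hx) (by rw [hform]; exact hQ)
  set S : Finset V := univ.filter fun v => 0 < x₀ v with hS
  have hkkt := kkt C hC x₀ hx₀ hmin'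
  have hSne : S.Nonempty := by
    by_contra hne
    rw [not_nonempty_iff_eq_empty] at hne
    have : ∀ v, x₀ v = 0 := by
      intro v
      by_contra hv
      have h1 : 0 < x₀ v := lt_of_le_of_ne (hx₀.1 v) (Ne.symm hv)
      have h2 : v ∈ S := by rw [hS]; simp [h1]
      rw [hne] at h2
      exact absurd h2 (notMem_empty v)
    have h3 := hx₀.2
    simp [this] at h3
  -- on the support the row sums equal `m`
  have hrow : ∀ i ∈ S, (C *ᵥ x₀) i = m := by
    intro i hi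
    have hi' : 0 < x₀ i := by simpa [hS] using hi
    have h1 : ∀ j, x₀ j * (C *ᵥ x₀) j = x₀ j * (C *ᵥ x₀) i := by
      intro j
      by_cases hj : x₀ j = 0
      · rw [hj]; ring
      · have hj' : 0 < x₀ j := lt_of_le_of_ne (hx₀.1 j) (Ne.symm hj)
        rw [le_antisymm (hkkt j i hj') (hkkt i j hi')]
    have h2 : m = ∑ j, x₀ j * (C *ᵥ x₀) j := rfl
    rw [h2, sum_congr rfl fun j _ => h1 j, ← sum_mul, hx₀.2, one_mul]
  refine ⟨S, hSne, fun y hy0 hy => ?_⟩
  have key : ∑ j, x₀ j * (∑ i, y i * c i j) = (∑ i, y i) * m := by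
    have h1 : ∑ j, x₀ j * (∑ i, y i * c i j) = ∑ i, y i * (C *ᵥ x₀) i := by
      simp only [mulVec, dotProduct, hCdef, Matrix.of_apply, mul_sum]
      rw [sum_comm]
      refine sum_congr rfl fun i _ => sum_congr rfl fun j _ => by ring
    rw [h1, sum_mul]
    refine sum_congr rfl fun i _ => ?_
    by_cases hi : i ∈ S
    · rw [hrow i hi]
    · rw [hy0 i hi]; ring
  have hlt : ∑ j, x₀ j * (∑ i, y i * c i j) < ∑ j, x₀ j * ((∑ i, y i) * g) := by
    rw [key, ← sum_mul, hx₀.2, one_mul]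
    exact mul_lt_mul_of_pos_left hmg hy
  obtain ⟨j, -, hj⟩ := exists_lt_of_sum_lt hlt
  have hj0 : x₀ j ≠ 0 := by
    intro h; rw [h] at hj; simp at hj
  have hjpos : 0 < x₀ j := lt_of_le_of_ne (hx₀.1 j) (Ne.symm hj0)
  exact ⟨j, by simp [hS, hjpos], lt_of_mul_lt_mul_left hj hjpos.le⟩

/-- the extension property for sets: for `W ⊆ S` nonempty some `j ∈ S` has total cost to `W` less
than `#W * g` -/
theorem ext_set {c : V → V → ℝ} {g : ℝ} {S : Finset V}
    (hS : ∀ y : V → ℝ, (∀ v, v ∉ S → y v = 0) → 0 < ∑ v, y v →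
      ∃ j ∈ S, ∑ i, y i * c i j < (∑ i, y i) * g) (W : Finset V) (hW : W ⊆ S)
    (hne : W.Nonempty) : ∃ j ∈ S, ∑ i ∈ W, c i j < #W * g := by
  have h1 : ∑ v, (if v ∈ W then (1 : ℝ) else 0) = #W := by simp
  obtain ⟨j, hj, hlt⟩ := hS (fun v => if v ∈ W then 1 else 0)
    (fun v hv => if_neg fun h => hv (hW h)) (by
      rw [h1]; exact_mod_cast hne.card_pos)
  refine ⟨j, hj, ?_⟩
  rw [h1] at hlt
  simpa [ite_mul, sum_ite_mem] using hlt

/-- A `k`-subset of minimal total cost has all its internal costs at a vertex below `1`. -/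
theorem exists_good_set {c : V → V → ℝ} (hsymm : ∀ u v, c u v = c v u)
    (hdiag : ∀ v, c v v = 1) (hnonneg : ∀ u v, 0 ≤ c u v) {k : ℕ} (hk : 2 ≤ k) {S : Finset V}
    (hS : ∀ y : V → ℝ, (∀ v, v ∉ S → y v = 0) → 0 < ∑ v, y v →
      ∃ j ∈ S, ∑ i, y i * c i j < (∑ i, y i) * (1 / ((k : ℝ) - 1)))
    (hne : S.Nonempty) :
    ∃ T ⊆ S, #T = k ∧ ∀ t ∈ T, ∑ i ∈ T.erase t, c i t < 1 := by
  have hk1 : (0 : ℝ) < (k : ℝ) - 1 := by
    have : (2 : ℝ) ≤ k := by exact_mod_cast hk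
    linarith
  have hcard : k ≤ #S := by
    obtain ⟨j, hj, hlt⟩ := ext_set hS S (Subset.refl S) hne
    have h1 : 1 ≤ ∑ i ∈ S, c i j := by
      rw [← hdiag j]
      exact single_le_sum (f := fun i => c i j) (fun i _ => hnonneg i j) hj
    have h2 : 1 < (#S : ℝ) * (1 / ((k : ℝ) - 1)) := lt_of_le_of_lt h1 hlt
    rw [mul_one_div, lt_div_iff₀ hk1, one_mul] at h2
    have h3 : (k : ℝ) < #S + 1 := by linarith
    have h4 : k < #S + 1 := by exact_mod_cast h3
    omega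
  obtain ⟨T, hT, hmin⟩ := exists_min_image (S.powersetCard k)
    (fun T => ∑ u ∈ T, ∑ v ∈ T, c u v) (powersetCard_nonempty.2 hcard)
  rw [mem_powersetCard] at hT
  refine ⟨T, hT.1, hT.2, fun t ht => ?_⟩
  set T₀ := T.erase t with hT₀
  have hT₀c : #T₀ = k - 1 := by rw [hT₀, card_erase_of_mem ht, hT.2]
  have hT₀S : T₀ ⊆ S := (erase_subset _ _).trans hT.1
  have hT₀ne : T₀.Nonempty := by rw [← card_pos, hT₀c]; omega
  obtain ⟨j, hj, hlt⟩ := ext_set hS T₀ hT₀S hT₀ne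
  have hlt1 : ∑ i ∈ T₀, c i j < 1 := by
    have : (#T₀ : ℝ) * (1 / ((k : ℝ) - 1)) = 1 := by
      rw [hT₀c, Nat.cast_sub (by omega), Nat.cast_one]; field_simp
    rwa [this] at hlt
  have hjT₀ : j ∉ T₀ := by
    intro hmem
    have : 1 ≤ ∑ i ∈ T₀, c i j := by
      rw [← hdiag j]
      exact single_le_sum (f := fun i => c i j) (fun i _ => hnonneg i j) hmem
    linarith
  have hexp : ∀ w, w ∉ T₀ → ∑ u ∈ insert w T₀, ∑ v ∈ insert w T₀, c u v =
      ∑ u ∈ T₀, ∑ v ∈ T₀, c u v + 2 * ∑ i ∈ T₀, c i w + 1 := by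
    intro w hw
    rw [sum_insert hw, sum_insert hw, hdiag]
    have h1 : ∑ u ∈ T₀, ∑ v ∈ insert w T₀, c u v =
        ∑ u ∈ T₀, c u w + ∑ u ∈ T₀, ∑ v ∈ T₀, c u v := by
      rw [← sum_add_distrib]
      exact sum_congr rfl fun u _ => sum_insert hw
    rw [h1, sum_congr rfl fun v _ => hsymm w v]
    ring
  have htT₀ : t ∉ T₀ := notMem_erase t T
  have hTt : insert t T₀ = T := insert_erase ht
  have hmem : insert j T₀ ∈ S.powersetCard k := by
    rw [mem_powersetCard]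
    refine ⟨insert_subset hj hT₀S, ?_⟩
    rw [card_insert_of_notMem hjT₀, hT₀c]; omega
  have h := hmin _ hmem
  rw [hexp j hjT₀] at h
  have h2 := hexp t htT₀
  rw [hTt] at h2
  rw [h2] at h
  linarith

end Pool.Agent.Y781.DM
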