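import Mathlib

/-!
# Pairings of `Fin k` and exchange arguments
-/

namespace Pool.Agent.Y781.DM

open Finset Equiv

/-- first position of the `i`-th pair -/
def pos0 {k : ℕ} (i : Fin (k / 2)) : Fin k := ⟨2 * i, by have := i.2; omega⟩

/-- second position of the `i`-th pair -/
def pos1 {k : ℕ} (i : Fin (k / 2)) : Fin k := ⟨2 * i + 1, by have := i.2; omega⟩

lemma pos_inj {k : ℕ} : Function.Injective (Sum.elim (pos0 (k := k)) (pos1 (k := k))) := by
  rintro (i | i) (j | j) h <;> simp only [Sum.elim_inl, Sum.elim_inr, pos0, pos1, Fin.mk.injEq] at h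
  · congr 1; ext; omega
  · omega
  · omega
  · congr 1; ext; omega

/-- any family of disjoint pairs is the family of pairs of a permutation -/
lemma exists_perm_of_pairs {k : ℕ} (a b : Fin (k / 2) → Fin k)
    (h : Function.Injective (Sum.elim a b)) :
    ∃ σ : Perm (Fin k), (∀ i, σ (pos0 i) = a i) ∧ ∀ i, σ (pos1 i) = b i := by
  classical
  set f : Fin k → Fin k := Function.extend (Sum.elim pos0 pos1) (Sum.elim a b) id with hf
  have hfe : ∀ s, f (Sum.elim pos0 pos1 s) = Sum.elim a b s := fun s =>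
    pos_inj.extend_apply _ _ s
  set s : Finset (Fin k) := univ.image (Sum.elim (pos0 (k := k)) pos1) with hs
  have hinj : Set.InjOn f s := by
    intro x hx y hy hxy
    simp only [hs, coe_image, coe_univ, Set.image_univ, Set.mem_range] at hx hy
    obtain ⟨x, rfl⟩ := hx
    obtain ⟨y, rfl⟩ := hy
    rw [hfe, hfe] at hxy
    rw [h hxy]
  obtain ⟨g, hg⟩ := Finset.exists_equiv_extend_of_card_eq (t := (univ : Finset (Fin k)))
    (by simp) (s := s) (f := f) (subset_univ _) hinj
  have hmem : ∀ x, Sum.elim (pos0 (k := k)) pos1 x ∈ s := fun x => by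
    rw [hs]; exact mem_image_of_mem _ (mem_univ x)
  refine ⟨g.trans (Equiv.subtypeUnivEquiv (by simp)), fun i => ?_, fun i => ?_⟩
  · have := hg _ (hmem (Sum.inl i))
    rw [hfe] at this
    simpa using this
  · have := hg _ (hmem (Sum.inr i))
    rw [hfe] at this
    simpa using this

/-- number of pairs of `σ` that are edges of `F` -/
noncomputable def cnt {k : ℕ} (F : SimpleGraph (Fin k)) (σ : Perm (Fin k)) : ℕ := by
  classical
  exact #{i : Fin (k / 2) | F.Adj (σ (pos0 i)) (σ (pos1 i))}

lemma cnt_le {k : ℕ} (F : SimpleGraph (Fin k)) (σ : Perm (Fin k)) : cnt F σ ≤ k / 2 := by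
  classical
  unfold cnt
  exact (card_le_univ _).trans (by simp)

/-- for odd `k`, exchanging a position with the unpaired one changes the count by at most one -/
lemma cnt_star {k : ℕ} (hk : k % 2 = 1) (F : SimpleGraph (Fin k)) (σ : Perm (Fin k))
    (x c : Fin k) (hc : (c : ℕ) = k - 1) : cnt F (σ * swap x c) ≤ cnt F σ + 1 := by
  classical
  unfold cnt
  have hc0 : ∀ i : Fin (k / 2), pos0 i ≠ c := fun i h => by
    have h1 := congrArg Fin.val h
    have h2 := i.2
    simp only [pos0] at h1
    omega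
  have hc1 : ∀ i : Fin (k / 2), pos1 i ≠ c := fun i h => by
    have h1 := congrArg Fin.val h
    have h2 := i.2
    simp only [pos1] at h1
    omega
  have key : ∀ i : Fin (k / 2), pos0 i ≠ x → pos1 i ≠ x →
      (F.Adj ((σ * swap x c) (pos0 i)) ((σ * swap x c) (pos1 i)) ↔
        F.Adj (σ (pos0 i)) (σ (pos1 i))) := by
    intro i h0 h1
    rw [Perm.mul_apply, Perm.mul_apply, swap_apply_of_ne_of_ne h0 (hc0 i),
      swap_apply_of_ne_of_ne h1 (hc1 i)]
  by_cases hx : ∃ i₀ : Fin (k / 2), pos0 i₀ = x ∨ pos1 i₀ = x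
  · obtain ⟨i₀, hi₀⟩ := hx
    have hsub : (univ.filter fun i : Fin (k / 2) =>
        F.Adj ((σ * swap x c) (pos0 i)) ((σ * swap x c) (pos1 i))) ⊆
        insert i₀ (univ.filter fun i : Fin (k / 2) => F.Adj (σ (pos0 i)) (σ (pos1 i))) := by
      intro i hi
      rw [mem_filter] at hi
      rw [mem_insert, mem_filter]
      by_cases h : i = i₀
      · exact Or.inl h
      · right
        have h0 : pos0 i ≠ x := by
          intro h'
          rcases hi₀ with h'' | h''
          · exact h (by simpa using pos_inj (a₁ := Sum.inl i) (a₂ := Sum.inl i₀) (by simp [h', h'']))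
          · have := pos_inj (a₁ := Sum.inl i) (a₂ := Sum.inr i₀) (by simp [h', h''])
            simp at this
        have h1 : pos1 i ≠ x := by
          intro h'
          rcases hi₀ with h'' | h''
          · have := pos_inj (a₁ := Sum.inr i) (a₂ := Sum.inl i₀) (by simp [h', h''])
            simp at this
          · exact h (by simpa using pos_inj (a₁ := Sum.inr i) (a₂ := Sum.inr i₀) (by simp [h', h'']))
        exact ⟨mem_univ _, (key i h0 h1).1 hi.2⟩
    exact (card_le_card hsub).trans (card_insert_le _ _)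
  · push Not at hx
    have : (univ.filter fun i : Fin (k / 2) =>
        F.Adj ((σ * swap x c) (pos0 i)) ((σ * swap x c) (pos1 i))) =
        (univ.filter fun i : Fin (k / 2) => F.Adj (σ (pos0 i)) (σ (pos1 i))) := by
      ext i
      rw [mem_filter, mem_filter, key i (hx i).1 (hx i).2]
    rw [this]
    exact Nat.le_succ _

/-- discrete continuity along star transpositions -/
lemma cnt_interval {k : ℕ} (hk : k % 2 = 1) (F : SimpleGraph (Fin k)) (σ₀ σ₁ : Perm (Fin k))
    (m : ℕ) (h0 : cnt F σ₀ ≤ m) (h1 : m ≤ cnt F σ₁) : ∃ σ, cnt F σ = m := by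
  by_contra hno
  push Not at hno
  have hlt0 : cnt F σ₀ < m := lt_of_le_of_ne h0 (hno σ₀)
  set c : Fin k := ⟨k - 1, by omega⟩ with hc
  have hstar : ∀ σ x, cnt F σ < m → cnt F (σ * swap x c) < m := by
    intro σ x hσ
    have := cnt_star hk F σ x c rfl
    exact lt_of_le_of_ne (by omega) (hno _)
  have hswap : ∀ σ x y, x ≠ y → cnt F σ < m → cnt F (σ * swap x y) < m := by
    intro σ x y hxy hσ
    by_cases hxc : x = c
    · rw [hxc, swap_comm]; exact hstar _ _ hσ
    by_cases hyc : y = c
    · rw [hyc]; exact hstar _ _ hσ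
    have h3 : swap x y = swap x c * swap y c * swap x c := by
      have := swap_mul_swap_mul_swap (x := y) (y := c) (z := x) hyc (Ne.symm hxy)
      rw [← this, swap_comm c x]
    rw [h3, ← mul_assoc, ← mul_assoc]
    exact hstar _ _ (hstar _ _ (hstar _ _ hσ))
  have hall : ∀ τ : Perm (Fin k), cnt F (σ₀ * τ) < m := by
    intro τ
    induction τ using Perm.swap_induction_on' with
    | one => simpa using hlt0
    | mul_swap f x y hxy ih => rw [← mul_assoc]; exact hswap _ _ _ hxy ih
  have := hall (σ₀⁻¹ * σ₁)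
  rw [mul_inv_cancel_left] at this
  omega

lemma pos_cases {k : ℕ} (u : Fin k) : (∃ i : Fin (k / 2), u = pos0 i ∨ u = pos1 i) ∨
    (u : ℕ) = 2 * (k / 2) := by
  by_cases h : (u : ℕ) = 2 * (k / 2)
  · exact Or.inr h
  · left
    have hu := u.2
    refine ⟨⟨u / 2, by omega⟩, ?_⟩
    rcases Nat.mod_two_eq_zero_or_one (u : ℕ) with h2 | h2
    · left; ext; simp only [pos0]; omega
    · right; ext; simp only [pos1]; omega

lemma pos0_ne_pos1 {k : ℕ} (i j : Fin (k / 2)) : pos0 i ≠ pos1 (k := k) j := by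
  intro h
  have := pos_inj (a₁ := Sum.inl i) (a₂ := Sum.inr j) (by simpa using h)
  simp at this

lemma pos0_injective {k : ℕ} {i j : Fin (k / 2)} (h : pos0 i = pos0 (k := k) j) : i = j := by
  simpa using pos_inj (a₁ := Sum.inl i) (a₂ := Sum.inl j) (by simpa using h)

lemma pos1_injective {k : ℕ} {i j : Fin (k / 2)} (h : pos1 i = pos1 (k := k) j) : i = j := by
  simpa using pos_inj (a₁ := Sum.inr i) (a₂ := Sum.inr j) (by simpa using h)

/-- one improvement step -/
lemma improve {k : ℕ} (D : SimpleGraph (Fin k)) (hD : ∀ x y z, D.Adj x y → D.Adj x z → y = z)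
    (σ : Perm (Fin k)) (i : Fin (k / 2)) (a b v : Fin k)
    (hab : (a = pos0 i ∧ b = pos1 i) ∨ (a = pos1 i ∧ b = pos0 i)) (hvb : v ≠ b)
    (hadj : D.Adj (σ a) (σ v)) : cnt D σ < cnt D (σ * swap b v) := by
  classical
  have hva : v ≠ a := fun h => by rw [h] at hadj; exact D.loopless.irrefl _ hadj
  have hba : b ≠ a := by
    rcases hab with ⟨rfl, rfl⟩ | ⟨rfl, rfl⟩
    · exact (pos0_ne_pos1 i i).symm
    · exact pos0_ne_pos1 i i
  unfold cnt
  apply card_lt_card
  rw [ssubset_iff_of_subset]
  · refine ⟨i, ?_, ?_⟩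
    · rw [mem_filter]
      refine ⟨mem_univ _, ?_⟩
      have h1 : (σ * swap b v) a = σ a := by
        rw [Perm.mul_apply, swap_apply_of_ne_of_ne hba.symm hva.symm]
      have h2 : (σ * swap b v) b = σ v := by
        rw [Perm.mul_apply, swap_apply_left]
      rcases hab with ⟨ha, hb⟩ | ⟨ha, hb⟩
      · rw [← ha, ← hb, h1, h2]; exact hadj
      · rw [← ha, ← hb, h1, h2]; exact hadj.symm
    · rw [mem_filter]
      rintro ⟨-, h⟩
      have h' : D.Adj (σ a) (σ b) := by
        rcases hab with ⟨rfl, rfl⟩ | ⟨rfl, rfl⟩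
        · exact h
        · exact h.symm
      exact hvb (σ.injective (hD _ _ _ hadj h'))
  · intro j hj
    rw [mem_filter] at hj ⊢
    refine ⟨mem_univ _, ?_⟩
    have hj2 := hj.2
    -- neither `b` nor `v` occurs in the pair `j`
    have hb : pos0 j ≠ b ∧ pos1 j ≠ b := by
      constructor
      · intro h
        rcases hab with ⟨ha, hb⟩ | ⟨ha, hb⟩
        · exact pos0_ne_pos1 _ _ (h.trans hb)
        · have hji := pos0_injective (h.trans hb)
          subst hji
          rw [← ha, ← hb] at hj2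
          exact hvb (σ.injective (hD _ _ _ hadj hj2.symm))
      · intro h
        rcases hab with ⟨ha, hb⟩ | ⟨ha, hb⟩
        · have hji := pos1_injective (h.trans hb)
          subst hji
          rw [← ha, ← hb] at hj2
          exact hvb (σ.injective (hD _ _ _ hadj hj2))
        · exact pos0_ne_pos1 _ _ (h.trans hb).symm
    have hv : pos0 j ≠ v ∧ pos1 j ≠ v := by
      constructor
      · intro h
        rw [h] at hj2
        have h3 := σ.injective (hD _ _ _ hadj.symm hj2)
        rcases hab with ⟨ha, hb'⟩ | ⟨ha, hb'⟩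
        · exact pos0_ne_pos1 _ _ (ha.symm.trans h3)
        · have hji := pos1_injective (ha.symm.trans h3)
          subst hji
          exact hvb (h.symm.trans hb'.symm)
      · intro h
        rw [h] at hj2
        have h3 := σ.injective (hD _ _ _ hadj.symm hj2.symm)
        rcases hab with ⟨ha, hb'⟩ | ⟨ha, hb'⟩
        · have hji := pos0_injective (ha.symm.trans h3)
          subst hji
          exact hvb (h.symm.trans hb'.symm)
        · exact pos0_ne_pos1 _ _ (ha.symm.trans h3).symm
    rw [Perm.mul_apply, Perm.mul_apply, swap_apply_of_ne_of_ne hb.1 hv.1,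
      swap_apply_of_ne_of_ne hb.2 hv.2]
    exact hj2

/-- a graph of maximum degree one on `Fin k` is contained in the set of pairs of a permutation -/
lemma exists_pairing {k : ℕ} (D : SimpleGraph (Fin k))
    (hD : ∀ x y z, D.Adj x y → D.Adj x z → y = z) :
    ∃ σ : Perm (Fin k), ∀ x y, D.Adj x y →
      ∃ i, (x = σ (pos0 i) ∧ y = σ (pos1 i)) ∨ (y = σ (pos0 i) ∧ x = σ (pos1 i)) := by
  classical
  obtain ⟨σ, -, hmax⟩ := exists_max_image (univ : Finset (Perm (Fin k))) (cnt D) ⟨1, mem_univ _⟩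
  refine ⟨σ, fun x y hxy => ?_⟩
  by_contra hno
  push Not at hno
  -- positions
  have main : ∀ x y, D.Adj x y → (∀ i, (x = σ (pos0 i) → y ≠ σ (pos1 i)) ∧
      (y = σ (pos0 i) → x ≠ σ (pos1 i))) → (∃ i : Fin (k / 2), σ⁻¹ x = pos0 i ∨ σ⁻¹ x = pos1 i) →
      False := by
    intro x y hxy hno ⟨i, hi⟩
    have hadj : D.Adj (σ (σ⁻¹ x)) (σ (σ⁻¹ y)) := by simpa using hxy
    rcases hi with hi | hi
    · have hx : x = σ (pos0 i) := by rw [← hi]; simp
      have hvb : σ⁻¹ y ≠ pos1 i := fun h => (hno i).1 hx (by rw [← h]; simp)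
      have := improve D hD σ i (σ⁻¹ x) (pos1 i) (σ⁻¹ y) (Or.inl ⟨hi, rfl⟩) hvb hadj
      exact absurd (hmax _ (mem_univ _)) (not_le.2 this)
    · have hx : x = σ (pos1 i) := by rw [← hi]; simp
      have hvb : σ⁻¹ y ≠ pos0 i := fun h => (hno i).2 (by rw [← h]; simp) hx
      have := improve D hD σ i (σ⁻¹ x) (pos0 i) (σ⁻¹ y) (Or.inr ⟨hi, rfl⟩) hvb hadj
      exact absurd (hmax _ (mem_univ _)) (not_le.2 this)
  rcases pos_cases (σ⁻¹ x) with hx | hx
  · exact main x y hxy (fun i => hno i) hx
  rcases pos_cases (σ⁻¹ y) with hy | hy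
  · exact main y x hxy.symm (fun i => ⟨(hno i).2, (hno i).1⟩) hy
  have : σ⁻¹ x = σ⁻¹ y := Fin.ext (hx.trans hy.symm)
  have hxy' : x = y := by simpa using this
  rw [hxy'] at hxy
  exact D.loopless.irrefl _ hxy

end Pool.Agent.Y781.DM
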