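import Mathlib
import Pool.Agent.Y781.DMCore
import Pool.Agent.Y781.DMMatch

/-!
# Two-coloured multigraphs: cost function and embeddings through matchings
-/

namespace Pool.Agent.Y781.DM

open Finset Equiv

open scoped Classical in
/-- cost of a pair when red edges have weight `p` and blue edges weight `1 - p` -/
noncomputable def cost {V : Type*} (p : ℝ) (R B : SimpleGraph V) (u v : V) : ℝ :=
  1 - (if R.Adj u v then p else 0) - (if B.Adj u v then 1 - p else 0)

section cost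

variable {V : Type*} {p : ℝ} {R B : SimpleGraph V}

lemma cost_symm (u v : V) : cost p R B u v = cost p R B v u := by
  classical
  simp only [cost, R.adj_comm u v, B.adj_comm u v]

lemma cost_diag (v : V) : cost p R B v v = 1 := by
  classical
  simp [cost]

lemma cost_nonneg (h0 : 0 ≤ p) (h1 : p ≤ 1) (u v : V) : 0 ≤ cost p R B u v := by
  classical
  unfold cost
  split_ifs <;> linarith

lemma cost_not_red (h1 : p ≤ 1) {u v : V} (h : ¬ R.Adj u v) :
    p ≤ cost p R B u v := by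
  classical
  unfold cost
  rw [if_neg h]
  split_ifs <;> linarith

lemma cost_not_blue (h0 : 0 ≤ p) {u v : V} (h : ¬ B.Adj u v) :
    1 - p ≤ cost p R B u v := by
  classical
  unfold cost
  rw [if_neg h]
  split_ifs <;> linarith

lemma cost_none {u v : V} (hR : ¬ R.Adj u v) (hB : ¬ B.Adj u v) :
    cost p R B u v = 1 := by
  classical
  simp [cost, hR, hB]

end cost

/-- the uniform distribution has cost `1 - (2 p e(R) + 2 (1 - p) e(B)) / n ^ 2` -/
lemma sum_cost {n : ℕ} (p : ℝ) (R B : SimpleGraph (Fin n)) :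
    ∑ u, ∑ v, cost p R B u v =
      (n : ℝ) ^ 2 - p * (2 * R.edgeSet.ncard) - (1 - p) * (2 * B.edgeSet.ncard) := by
  classical
  have key : ∀ G : SimpleGraph (Fin n), ∀ w : ℝ,
      ∑ u, ∑ v, (if G.Adj u v then w else 0) = w * (2 * G.edgeSet.ncard) := by
    intro G w
    have h1 : ∀ u, ∑ v, (if G.Adj u v then w else 0) = w * G.degree u := by
      intro u
      rw [← sum_filter, sum_const, nsmul_eq_mul, mul_comm]
      congr 2
      rw [← SimpleGraph.card_neighborFinset_eq_degree]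
      congr 1
      ext v
      simp
    have h2 : ∑ u, (G.degree u : ℝ) = 2 * (G.edgeSet.ncard : ℝ) := by
      have := G.sum_degrees_eq_twice_card_edges
      rw [← Nat.cast_sum, this]
      rw [← G.coe_edgeFinset, Set.ncard_coe_finset]
      push_cast
      ring
    rw [sum_congr rfl fun u _ => h1 u, ← mul_sum, h2]
  simp only [cost, sum_sub_distrib, key]
  simp
  ring

/-- **Counting step.** If the weighted number of edges is large, there is a set `S` with the
extension property. -/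
theorem exists_core_of_large {k n : ℕ} (p : ℝ) (R B : SimpleGraph (Fin n))
    (h : (1 - 1 / ((k : ℝ) - 1)) * (n : ℝ) ^ 2 / 2 <
      p * R.edgeSet.ncard + (1 - p) * B.edgeSet.ncard) :
    ∃ S : Finset (Fin n), S.Nonempty ∧ ∀ y : Fin n → ℝ, (∀ v, v ∉ S → y v = 0) → 0 < ∑ v, y v →
      ∃ j ∈ S, ∑ i, y i * cost p R B i j < (∑ i, y i) * (1 / ((k : ℝ) - 1)) := by
  have hn : 0 < n := by
    rcases Nat.eq_zero_or_pos n with rfl | hn
    · have hR : R.edgeSet = ∅ := by
        ext e; induction e with | _ a b => exact a.elim0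
      have hB : B.edgeSet = ∅ := by
        ext e; induction e with | _ a b => exact a.elim0
      rw [hR, hB] at h
      simp at h
    · exact hn
  have hn' : (0 : ℝ) < n := by exact_mod_cast hn
  refine exists_core (cost p R B) cost_symm _ (fun _ => 1 / n) ⟨fun _ => by positivity, ?_⟩ ?_
  · simp [hn'.ne']
  · have h1 : ∑ u : Fin n, ∑ v : Fin n, (1 / (n : ℝ)) * (1 / n) * cost p R B u v =
        (1 / (n : ℝ)) * (1 / n) * ∑ u, ∑ v, cost p R B u v := by
      rw [mul_sum]
      exact sum_congr rfl fun u _ => (mul_sum _ _ _).symm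
    rw [h1, sum_cost]
    have h2 : (1 / (n : ℝ)) * (1 / n) * ((n : ℝ) ^ 2 - p * (2 * R.edgeSet.ncard) -
        (1 - p) * (2 * B.edgeSet.ncard)) =
        1 - 2 * (p * R.edgeSet.ncard + (1 - p) * B.edgeSet.ncard) / n ^ 2 := by
      field_simp
      ring
    rw [h2]
    have h3 : (1 - 1 / ((k : ℝ) - 1)) < 2 * (p * R.edgeSet.ncard + (1 - p) * B.edgeSet.ncard) /
        n ^ 2 := by
      rw [lt_div_iff₀ (by positivity)]
      linarith
    linarith

/-- `F` admits, for every `m ≤ k / 2`, a pairing with exactly `m` edges -/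
lemma flexible {k : ℕ} (F : SimpleGraph (Fin k))
    (hF : ∃ a b : Fin (k / 2) → Fin k, Function.Injective (Sum.elim a b) ∧ ∀ i, F.Adj (a i) (b i))
    (hFc : ∃ a b : Fin (k / 2) → Fin k, Function.Injective (Sum.elim a b) ∧
      ∀ i, ¬ F.Adj (a i) (b i))
    (heven : Even k → ∀ m, 0 < m → m < k / 2 → ∃ a b : Fin (k / 2) → Fin k,
      Function.Injective (Sum.elim a b) ∧ {i | F.Adj (a i) (b i)}.ncard = m)
    (m : ℕ) (hm : m ≤ k / 2) : ∃ σ : Perm (Fin k), cnt F σ = m := by
  classical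
  obtain ⟨a₁, b₁, hi₁, h₁⟩ := hF
  obtain ⟨a₀, b₀, hi₀, h₀⟩ := hFc
  obtain ⟨σ₁, ha₁, hb₁⟩ := exists_perm_of_pairs a₁ b₁ hi₁
  obtain ⟨σ₀, ha₀, hb₀⟩ := exists_perm_of_pairs a₀ b₀ hi₀
  have hc₁ : cnt F σ₁ = k / 2 := by
    unfold cnt
    rw [filter_true_of_mem]
    · simp
    · intro i _
      rw [ha₁, hb₁]; exact h₁ i
  have hc₀ : cnt F σ₀ = 0 := by
    unfold cnt
    rw [filter_false_of_mem]
    · simp
    · intro i _
      rw [ha₀, hb₀]; exact h₀ i
  rcases Nat.even_or_odd k with hk | hk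
  · rcases Nat.eq_zero_or_pos m with rfl | hm0
    · exact ⟨σ₀, hc₀⟩
    rcases hm.eq_or_lt with rfl | hlt
    · exact ⟨σ₁, hc₁⟩
    obtain ⟨a, b, hi, hcard⟩ := heven hk m hm0 hlt
    obtain ⟨σ, ha, hb⟩ := exists_perm_of_pairs a b hi
    refine ⟨σ, ?_⟩
    rw [← hcard]
    unfold cnt
    rw [← Set.ncard_coe_finset]
    congr 1
    ext i
    simp [ha, hb]
  · exact cnt_interval (Nat.odd_iff.1 hk) F σ₀ σ₁ m (by omega) (by omega)

/-- **Embedding step.** -/
theorem embed_of_good' {k : ℕ} {V : Type*} (R B : SimpleGraph V) (F : SimpleGraph (Fin k))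
    (hflex : ∀ m ≤ k / 2, ∃ σ : Perm (Fin k), cnt F σ = m)
    (e : Fin k ↪ V)
    (hcol : ∀ x y, x ≠ y → R.Adj (e x) (e y) ∨ B.Adj (e x) (e y))
    (hdeg : ∀ x y z, x ≠ y → x ≠ z → ¬ (R.Adj (e x) (e y) ∧ B.Adj (e x) (e y)) →
      ¬ (R.Adj (e x) (e z) ∧ B.Adj (e x) (e z)) → y = z) :
    ∃ φ : Fin k ↪ V, (∀ u, ∃ x, e x = φ u) ∧ ∀ u v, u ≠ v →
      (F.Adj u v → R.Adj (φ u) (φ v)) ∧ (¬ F.Adj u v → B.Adj (φ u) (φ v)) := by
  classical
  set D : SimpleGraph (Fin k) :=
    { Adj := fun x y => x ≠ y ∧ ¬ (R.Adj (e x) (e y) ∧ B.Adj (e x) (e y))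
      symm := ⟨fun x y h => ⟨h.1.symm, fun h' => h.2 ⟨h'.1.symm, h'.2.symm⟩⟩⟩
      loopless := ⟨fun x h => h.1 rfl⟩ } with hDdef
  obtain ⟨σ, hσ⟩ := exists_pairing D (fun x y z hxy hxz => hdeg x y z hxy.1 hxz.1 hxy.2 hxz.2)
  set P : Finset (Fin (k / 2)) :=
    univ.filter fun i => R.Adj (e (σ (pos0 i))) (e (σ (pos1 i))) with hP
  obtain ⟨τ, hτ⟩ := hflex (#P) ((card_le_univ _).trans (by simp))
  set Q : Finset (Fin (k / 2)) :=
    univ.filter fun i => F.Adj (τ (pos0 i)) (τ (pos1 i)) with hQ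
  have hcard : #Q = #P := by
    rw [hQ, ← hτ]
    unfold cnt
    congr
  -- a permutation of the pairs taking `Q` to `P`
  obtain ⟨π, hπ⟩ : ∃ π : Perm (Fin (k / 2)), ∀ i, i ∈ Q ↔ π i ∈ P := by
    have e₁ : {x // x ∈ Q} ≃ {x // x ∈ P} := Fintype.equivOfCardEq (by simpa using hcard)
    refine ⟨e₁.extendSubtype, fun i => ⟨fun h => e₁.extendSubtype_mem i h, fun h => ?_⟩⟩
    by_contra hn
    exact e₁.extendSubtype_not_mem i hn h
  obtain ⟨ψ, hψ0, hψ1⟩ := exists_perm_of_pairs (k := k) (fun i => pos0 (π i)) (fun i => pos1 (π i))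
    (by
      rintro (i | i) (j | j) h
      · have h' : pos0 (π i) = pos0 (k := k) (π j) := by simpa using h
        simpa using pos0_injective h'
      · exact absurd (by simpa using h) (pos0_ne_pos1 (π i) (π j))
      · exact absurd (by simpa using h) (pos0_ne_pos1 (π j) (π i)).symm
      · have h' : pos1 (π i) = pos1 (k := k) (π j) := by simpa using h
        simpa using pos1_injective h')
  refine ⟨(((τ⁻¹).trans (ψ.trans σ)).toEmbedding).trans e, fun u => ⟨_, rfl⟩,
    fun u v huv => ?_⟩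
  set x := ψ (τ⁻¹ u) with hx
  set y := ψ (τ⁻¹ v) with hy
  have hxy : σ x ≠ σ y := by
    intro h
    have := ψ.injective (σ.injective h)
    exact huv (by simpa using this)
  have hφu : ((((τ⁻¹).trans (ψ.trans σ)).toEmbedding).trans e) u = e (σ x) := rfl
  have hφv : ((((τ⁻¹).trans (ψ.trans σ)).toEmbedding).trans e) v = e (σ y) := rfl
  rw [hφu, hφv]
  -- if the pair is not green it is one of the pairs
  have key : ¬ (R.Adj (e (σ x)) (e (σ y)) ∧ B.Adj (e (σ x)) (e (σ y))) →
      (F.Adj u v ↔ R.Adj (e (σ x)) (e (σ y))) := by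
    intro hng
    obtain ⟨i, hi⟩ := hσ (σ x) (σ y) ⟨hxy, hng⟩
    obtain ⟨i', rfl⟩ := π.surjective i
    have hiff : F.Adj (τ (pos0 i')) (τ (pos1 i')) ↔
        R.Adj (e (σ (pos0 (π i')))) (e (σ (pos1 (π i')))) := by
      have := hπ i'
      rw [hQ, hP, mem_filter, mem_filter] at this
      simpa using this
    rcases hi with ⟨h1, h2⟩ | ⟨h1, h2⟩
    · have h1' : τ⁻¹ u = pos0 i' := ψ.injective (by rw [hψ0]; exact σ.injective h1)
      have h2' : τ⁻¹ v = pos1 i' := ψ.injective (by rw [hψ1]; exact σ.injective h2)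
      have hu : u = τ (pos0 i') := by rw [← h1']; simp
      have hv : v = τ (pos1 i') := by rw [← h2']; simp
      rw [h1, h2, hu, hv]
      exact hiff
    · have h1' : τ⁻¹ v = pos0 i' := ψ.injective (by rw [hψ0]; exact σ.injective h1)
      have h2' : τ⁻¹ u = pos1 i' := ψ.injective (by rw [hψ1]; exact σ.injective h2)
      have hv : v = τ (pos0 i') := by rw [← h1']; simp
      have hu : u = τ (pos1 i') := by rw [← h2']; simp
      rw [h1, h2, hu, hv, F.adj_comm, R.adj_comm]
      exact hiff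
  constructor
  · intro hF
    by_contra hR
    exact hR ((key fun h => hR h.1).1 hF)
  · intro hF
    by_contra hB
    rcases hcol (σ x) (σ y) hxy with h | h
    · exact hF ((key fun h => hB h.2).2 h)
    · exact hB h

/-- **Embedding step.** -/
theorem embed_of_good {k : ℕ} {V : Type*} (R B : SimpleGraph V) (F : SimpleGraph (Fin k))
    (hflex : ∀ m ≤ k / 2, ∃ σ : Perm (Fin k), cnt F σ = m)
    (e : Fin k ↪ V)
    (hcol : ∀ x y, x ≠ y → R.Adj (e x) (e y) ∨ B.Adj (e x) (e y))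
    (hdeg : ∀ x y z, x ≠ y → x ≠ z → ¬ (R.Adj (e x) (e y) ∧ B.Adj (e x) (e y)) →
      ¬ (R.Adj (e x) (e z) ∧ B.Adj (e x) (e z)) → y = z) :
    ∃ φ : Fin k ↪ V, ∀ u v, u ≠ v →
      (F.Adj u v → R.Adj (φ u) (φ v)) ∧ (¬ F.Adj u v → B.Adj (φ u) (φ v)) := by
  obtain ⟨φ, -, hφ⟩ := embed_of_good' R B F hflex e hcol hdeg
  exact ⟨φ, hφ⟩

/-- **Main theorem**, weighted form: both colours with weight one half. -/
theorem main_half {k n : ℕ} (hk : 2 ≤ k) (F : SimpleGraph (Fin k))
    (hflex : ∀ m ≤ k / 2, ∃ σ : Perm (Fin k), cnt F σ = m) (R B : SimpleGraph (Fin n))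
    (hfree : ¬ ∃ φ : Fin k ↪ Fin n, ∀ u v, u ≠ v →
      (F.Adj u v → R.Adj (φ u) (φ v)) ∧ (¬ F.Adj u v → B.Adj (φ u) (φ v))) :
    ((R.edgeSet.ncard : ℝ) + B.edgeSet.ncard) / 2 ≤
      (1 - 1 / ((k : ℝ) - 1)) * (n : ℝ) ^ 2 / 2 := by
  classical
  by_contra hlt
  push Not at hlt
  obtain ⟨S, hne, hS⟩ := exists_core_of_large (k := k) (1 / 2) R B (by linarith)
  obtain ⟨T, -, hTk, hT⟩ := exists_good_set cost_symm cost_diag
    (cost_nonneg (by norm_num) (by norm_num)) hk hS hne
  apply hfree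
  set e : Fin k ↪ Fin n := (T.equivFinOfCardEq hTk).symm.toEmbedding.trans
    (Function.Embedding.subtype _) with he
  have heT : ∀ x, e x ∈ T := fun x => ((T.equivFinOfCardEq hTk).symm x).2
  have hle : ∀ x y, x ≠ y → cost (1 / 2) R B (e y) (e x) ≤
      ∑ i ∈ T.erase (e x), cost (1 / 2) R B i (e x) := fun x y hxy =>
    single_le_sum (f := fun i => cost (1 / 2) R B i (e x))
      (fun i _ => cost_nonneg (by norm_num) (by norm_num) _ _)
      (mem_erase.2 ⟨fun h => hxy (e.injective h).symm, heT y⟩)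
  have hhalf : ∀ u v, ¬ (R.Adj u v ∧ B.Adj u v) → (1 / 2 : ℝ) ≤ cost (1 / 2) R B v u := by
    intro u v h
    rw [cost_symm]
    by_cases hR : R.Adj u v
    · have := cost_not_blue (p := 1 / 2) (R := R) (B := B) (by norm_num)
        (fun hB => h ⟨hR, hB⟩)
      linarith
    · exact cost_not_red (by norm_num) hR
  refine embed_of_good R B F hflex e (fun x y hxy => ?_) (fun x y z hxy hxz hy hz => ?_)
  · by_contra h
    push Not at h
    have h1 := hle x y hxy
    rw [cost_symm, cost_none h.1 h.2] at h1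
    linarith [hT (e x) (heT x)]
  · by_contra hyz
    have h1 : cost (1 / 2) R B (e y) (e x) + cost (1 / 2) R B (e z) (e x) ≤
        ∑ i ∈ T.erase (e x), cost (1 / 2) R B i (e x) := by
      have hne' : e y ≠ e z := fun h => hyz (e.injective h)
      rw [← sum_pair (f := fun i => cost (1 / 2) R B i (e x)) hne']
      apply sum_le_sum_of_subset_of_nonneg
      · intro i hi
        rw [mem_insert, mem_singleton] at hi
        rcases hi with rfl | rfl
        · exact mem_erase.2 ⟨fun h => hxy (e.injective h).symm, heT y⟩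
        · exact mem_erase.2 ⟨fun h => hxz (e.injective h).symm, heT z⟩
      · exact fun i _ _ => cost_nonneg (by norm_num) (by norm_num) _ _
    have h2 := hhalf _ _ hy
    have h3 := hhalf _ _ hz
    linarith [hT (e x) (heT x)]

end Pool.Agent.Y781.DM
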