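import Mathlib
import Pool.Agent.Y781.DMMain

/-!
# Weighted Turan property with two parameters, and adding a dominating or isolated vertex
-/

namespace Pool.Agent.Y781.DM

open Finset Matrix

section core

variable {V : Type*} [Fintype V] [DecidableEq V]

/-- **Minimiser on the simplex.** -/
theorem exists_minimiser_simplex (c : V → V → ℝ) (hsymm : ∀ u v, c u v = c v u)
    (x : V → ℝ) (hx : x ∈ stdSimplex ℝ V) (hQ : ∑ u, ∑ v, x u * x v * c u v < 1) :
    ∃ z : V → ℝ, ∃ m : ℝ, m < 1 ∧ (∀ v, 0 ≤ z v) ∧ ∑ v, z v = 1 ∧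
      ∀ i, 0 < z i → ∑ j, z j * c i j = m := by
  classical
  set C : Matrix V V ℝ := Matrix.of c with hCdef
  have hC : C.transpose = C := by
    ext u v; simp [hCdef, hsymm u v]
  have hform : ∀ z : V → ℝ, z ⬝ᵥ C *ᵥ z = ∑ u, ∑ v, z u * z v * c u v := by
    intro z
    simp only [dotProduct, mulVec, hCdef, Matrix.of_apply, mul_sum]
    refine sum_congr rfl fun u _ => sum_congr rfl fun v _ => by ring
  have hcomp : IsCompact (stdSimplex ℝ V) := isCompact_stdSimplex ℝ V
  have hcont : Continuous fun z : V → ℝ => z ⬝ᵥ C *ᵥ z := by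
    simp only [dotProduct, mulVec]
    fun_prop
  obtain ⟨x₀, hx₀, hmin⟩ := hcomp.exists_isMinOn ⟨x, hx⟩ hcont.continuousOn
  have hmin' : ∀ z ∈ stdSimplex ℝ V, x₀ ⬝ᵥ C *ᵥ x₀ ≤ z ⬝ᵥ C *ᵥ z := fun z hz => hmin hz
  have hkkt := kkt C hC x₀ hx₀ hmin'
  refine ⟨x₀, x₀ ⬝ᵥ C *ᵥ x₀, ?_, hx₀.1, hx₀.2, fun i hi => ?_⟩
  · exact lt_of_le_of_lt (hmin' x hx) (by rw [hform]; exact hQ)
  · have h1 : ∀ j, x₀ j * (C *ᵥ x₀) j = x₀ j * (C *ᵥ x₀) i := by
      intro j
      by_cases hj : x₀ j = 0
      · rw [hj]; ring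
      · have hj' : 0 < x₀ j := lt_of_le_of_ne (hx₀.1 j) (Ne.symm hj)
        rw [le_antisymm (hkkt j i hj') (hkkt i j hi)]
    have h2 : x₀ ⬝ᵥ C *ᵥ x₀ = ∑ j, x₀ j * (C *ᵥ x₀) j := rfl
    rw [h2, sum_congr rfl fun j _ => h1 j, ← sum_mul, hx₀.2, one_mul]
    simp only [mulVec, dotProduct, hCdef, Matrix.of_apply]
    exact sum_congr rfl fun j _ => mul_comm _ _

/-- **Minimiser.** If a quadratic form with symmetric matrix is smaller than `(∑ x) ^ 2` at some
nonnegative `x`, there is a probability vector `z` supported in the support of `x` all of whose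
row sums over its support are equal to the same number `m < 1`. -/
theorem exists_minimiser (c : V → V → ℝ) (hsymm : ∀ u v, c u v = c v u)
    (x : V → ℝ) (hx : ∀ v, 0 ≤ x v) (hQ : ∑ u, ∑ v, x u * x v * c u v < (∑ v, x v) ^ 2) :
    ∃ z : V → ℝ, ∃ m : ℝ, m < 1 ∧ (∀ v, 0 ≤ z v) ∧ ∑ v, z v = 1 ∧
      (∀ v, 0 < z v → 0 < x v) ∧ ∀ i, 0 < z i → ∑ j, z j * c i j = m := by
  classical
  set s : ℝ := ∑ v, x v with hs
  have hs0 : 0 ≤ s := sum_nonneg fun v _ => hx v
  have hspos : 0 < s := by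
    rcases hs0.eq_or_lt with h | h
    · exfalso
      have hz : ∀ v, x v = 0 := fun v =>
        (sum_eq_zero_iff_of_nonneg fun v _ => hx v).1 h.symm v (mem_univ v)
      simp only [hz, zero_mul, sum_const_zero] at hQ
      rw [← h] at hQ
      simp at hQ
    · exact h
  have hsub : ∀ f : V → ℝ, (∀ v, x v = 0 → f v = 0) →
      ∑ v : {v : V // 0 < x v}, f v = ∑ v, f v := by
    intro f hf
    rw [← sum_subtype (univ.filter fun v => 0 < x v) (by simp) f]
    apply sum_subset (filter_subset _ _)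
    intro v _ hv
    apply hf
    by_contra h
    exact hv (by simpa using lt_of_le_of_ne (hx v) (Ne.symm h))
  obtain ⟨z, m, hm, hz0, hz1, hrow⟩ := exists_minimiser_simplex
    (V := {v : V // 0 < x v}) (fun u v => c u v) (fun u v => hsymm u v) (fun v => x v / s)
    ⟨fun v => div_nonneg (hx v) hs0, by
      rw [← sum_div, hsub x (fun v h => h), div_self hspos.ne']⟩ (by
      have h1 : ∀ u : V, ∑ v : {v : V // 0 < x v}, x u / s * (x v / s) * c u v =
          (∑ v, x u * x v * c u v) / s ^ 2 := by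
        intro u
        rw [hsub (fun v => x u / s * (x v / s) * c u v) (fun v h => by simp [h]), sum_div]
        exact sum_congr rfl fun v _ => by field_simp
      have h2 : ∑ u : {v : V // 0 < x v}, ∑ v : {v : V // 0 < x v},
          x u / s * (x v / s) * c u v = ∑ u : {v : V // 0 < x v},
            (∑ v, x u * x v * c u v) / s ^ 2 := sum_congr rfl fun u _ => h1 u
      rw [h2, hsub (fun u => (∑ v, x u * x v * c u v) / s ^ 2) (fun u h => by simp [h]),
        ← sum_div, div_lt_one (by positivity)]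
      exact hQ)
  set z' : V → ℝ := fun v => if h : 0 < x v then z ⟨v, h⟩ else 0 with hz'
  have hz'v : ∀ v : {v : V // 0 < x v}, z' v = z v := by
    intro v
    simp [hz', v.2]
  have hz'0 : ∀ v, x v = 0 → z' v = 0 := by
    intro v h
    simp [hz', h]
  refine ⟨z', m, hm, fun v => ?_, ?_, fun v hv => ?_, fun i hi => ?_⟩
  · simp only [hz']
    split_ifs with h
    · exact hz0 _
    · exact le_rfl
  · rw [← hsub z' hz'0, ← hz1]
    exact sum_congr rfl fun v _ => hz'v v
  · by_contra h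
    simp [hz', h] at hv
  · have hxi : 0 < x i := by
      by_contra h
      simp [hz', h] at hi
    have hzi : z' i = z ⟨i, hxi⟩ := hz'v ⟨i, hxi⟩
    rw [hzi] at hi
    rw [← hrow _ hi, ← hsub (fun j => z' j * c i j) (fun j h => by simp [hz'0 j h])]
    exact sum_congr rfl fun v _ => by rw [hz'v v]

end core

/-- embedding of the two-coloured complete graph with red graph `F` -/
def IsEmb {k : ℕ} {V : Type*} (F : SimpleGraph (Fin k)) (R B : SimpleGraph V)
    (φ : Fin k ↪ V) : Prop :=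
  ∀ u v, u ≠ v → (F.Adj u v → R.Adj (φ u) (φ v)) ∧ (¬ F.Adj u v → B.Adj (φ u) (φ v))

open scoped Classical in
/-- cost with weights `α` on non-red pairs and `β` on non-blue pairs -/
noncomputable def wc {V : Type*} (α β : ℝ) (R B : SimpleGraph V) (u v : V) : ℝ :=
  α * (if R.Adj u v then 0 else 1) + β * (if B.Adj u v then 0 else 1)

/-- the weighted Turan property -/
def WT {k : ℕ} (n : ℕ) (F : SimpleGraph (Fin k)) (α β : ℝ) : Prop :=
  ∀ (R B : SimpleGraph (Fin n)) (x : Fin n → ℝ), (∀ v, 0 ≤ x v) →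
    ∑ u, ∑ v, x u * x v * wc α β R B u v < (∑ v, x v) ^ 2 →
    ∃ φ : Fin k ↪ Fin n, (∀ u, 0 < x (φ u)) ∧ IsEmb F R B φ

section wc

variable {V : Type*} {α β : ℝ} {R B : SimpleGraph V}

lemma wc_symm (u v : V) : wc α β R B u v = wc α β R B v u := by
  classical
  simp only [wc, R.adj_comm u v, B.adj_comm u v]

lemma wc_swap (u v : V) : wc α β R B u v = wc β α B R u v := by
  classical
  simp only [wc]; ring

lemma wc_nonneg (h0 : 0 ≤ α) (h1 : 0 ≤ β) (u v : V) : 0 ≤ wc α β R B u v := by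
  classical
  unfold wc
  split_ifs <;> linarith

end wc

/-- swapping colours -/
lemma WT.compl {k n : ℕ} {F : SimpleGraph (Fin k)} {α β : ℝ} (h : WT n F α β) :
    WT n Fᶜ β α := by
  intro R B x hx hQ
  obtain ⟨φ, hφ, hE⟩ := h B R x hx (by simpa only [wc_swap (α := α) (β := β)] using hQ)
  refine ⟨φ, hφ, fun u v huv => ⟨fun h => ?_, fun h => ?_⟩⟩
  · rw [SimpleGraph.compl_adj] at h
    exact (hE u v huv).2 h.2
  · rw [SimpleGraph.compl_adj] at h
    exact (hE u v huv).1 (by_contra fun h' => h ⟨huv, h'⟩)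

/-- the one-vertex graph -/
lemma WT.one (n : ℕ) (F : SimpleGraph (Fin 1)) : WT n F 0 0 := by
  intro R B x hx hQ
  have hne : ∃ v, x v ≠ 0 := by
    by_contra h
    push Not at h
    simp [h] at hQ
  obtain ⟨v, hv⟩ := hne
  refine ⟨⟨fun _ => v, fun a b _ => Subsingleton.elim a b⟩, fun _ => ?_, fun a b hab => ?_⟩
  · exact lt_of_le_of_ne (hx v) (Ne.symm hv)
  · exact absurd (Subsingleton.elim a b) hab

/-- **Adding a dominating vertex.** -/
theorem WT.dominating {k n : ℕ} {F : SimpleGraph (Fin (k + 1))} {α β : ℝ} (hα : 1 ≤ α)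
    (hβ : 0 ≤ β) (w : Fin (k + 1)) (hw : ∀ u, u ≠ w → F.Adj w u)
    (h : WT n (F.comap w.succAbove) (α - 1) β) : WT n F α β := by
  classical
  intro R B x hx hQ
  obtain ⟨z, m, hm, hz0, hz1, hzx, hrow⟩ := exists_minimiser (wc α β R B) wc_symm x hx hQ
  set r : Fin n → Fin n → ℝ := fun u v => if R.Adj u v then 1 else 0 with hr
  have hrs : ∀ u v, r u v = r v u := fun u v => by simp only [hr, R.adj_comm u v]
  have hr0 : ∀ u v, 0 ≤ r u v := fun u v => by simp only [hr]; split_ifs <;> norm_num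
  have hrsq : ∀ u v, r u v * r u v = r u v := fun u v => by simp only [hr]; split_ifs <;> norm_num
  have hr1 : ∀ u v, 0 ≤ 1 - r u v := fun u v => by simp only [hr]; split_ifs <;> norm_num
  have hwc : ∀ u v, wc (α - 1) β R B u v = wc α β R B u v - (1 - r u v) := by
    intro u v
    simp only [wc, hr]
    split_ifs <;> ring
  have hwc0 : ∀ u v, 0 ≤ wc (α - 1) β R B u v := wc_nonneg (by linarith) hβ
  -- row sums
  have hrow' : ∀ i, z i * ∑ j, z j * wc α β R B i j = z i * m := by
    intro i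
    rcases (hz0 i).eq_or_lt with h0 | h0
    · rw [← h0]; ring
    · rw [hrow i h0]
  -- there is a red edge inside the support
  have hE : 0 < ∑ u, ∑ v, z u * z v * r u v := by
    have hnn : 0 ≤ ∑ u, ∑ v, z u * z v * r u v :=
      sum_nonneg fun u _ => sum_nonneg fun v _ =>
        mul_nonneg (mul_nonneg (hz0 u) (hz0 v)) (hr0 u v)
    rcases hnn.eq_or_lt with h0 | h0
    · exfalso
      have h1 : ∑ u, ∑ v, z u * z v * wc α β R B u v = m := by
        have : ∀ u, ∑ v, z u * z v * wc α β R B u v = z u * m := by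
          intro u
          rw [← hrow' u, mul_sum]
          exact sum_congr rfl fun v _ => by ring
        rw [sum_congr rfl fun u _ => this u, ← sum_mul, hz1, one_mul]
      have h2 : (1 : ℝ) ≤ ∑ u, ∑ v, z u * z v * wc α β R B u v := by
        have h3 : ∑ u, ∑ v, z u * z v * (1 - r u v) = 1 := by
          have : ∀ u v, z u * z v * (1 - r u v) = z u * z v - z u * z v * r u v := by
            intro u v; ring
          simp only [this, sum_sub_distrib]
          rw [← h0, sub_zero]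
          simp only [← mul_sum]
          rw [hz1, ← sum_mul, hz1, one_mul]
        rw [← h3]
        refine sum_le_sum fun u _ => sum_le_sum fun v _ => ?_
        apply mul_le_mul_of_nonneg_left _ (mul_nonneg (hz0 u) (hz0 v))
        have := hwc0 u v
        rw [hwc] at this
        linarith
      linarith
    · exact h0
  -- the averaging identity
  have hpt : ∀ v i j, z v * (z i * r v i * (z j * r v j) * (1 - wc (α - 1) β R B i j)) =
      z v * r v i * (z i * (z j - z j * wc α β R B i j)) +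
      z v * z i * z j * (r v i * (1 - r i j)) - z v * z i * z j * (r v i * (1 - r v j)) +
      z v * z i * z j * (r v i * (1 - r v j)) * wc (α - 1) β R B i j := by
    intro v i j
    rw [hwc]
    ring
  have hA : ∑ v, z v * ∑ i, ∑ j, z i * r v i * (z j * r v j) * (1 - wc (α - 1) β R B i j) =
      (1 - m) * (∑ u, ∑ v, z u * z v * r u v) +
      ∑ v, ∑ i, ∑ j, z v * z i * z j * (r v i * (1 - r v j)) * wc (α - 1) β R B i j := by
    have h1 : ∑ v, z v * ∑ i, ∑ j, z i * r v i * (z j * r v j) * (1 - wc (α - 1) β R B i j) =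
        ∑ v, ∑ i, ∑ j, z v * (z i * r v i * (z j * r v j) * (1 - wc (α - 1) β R B i j)) := by
      refine sum_congr rfl fun v _ => ?_
      rw [mul_sum]
      exact sum_congr rfl fun i _ => mul_sum _ _ _
    have h2 : ∑ v, ∑ i, ∑ j, z v * r v i * (z i * (z j - z j * wc α β R B i j)) =
        (1 - m) * (∑ u, ∑ v, z u * z v * r u v) := by
      rw [mul_sum]
      refine sum_congr rfl fun v _ => ?_
      rw [mul_sum]
      refine sum_congr rfl fun i _ => ?_
      rw [← mul_sum, ← mul_sum, sum_sub_distrib, hz1, mul_sub, hrow' i]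
      ring
    have h3 : ∑ v, ∑ i, ∑ j, z v * z i * z j * (r v i * (1 - r i j)) =
        ∑ v, ∑ i, ∑ j, z v * z i * z j * (r v i * (1 - r v j)) := by
      rw [sum_comm]
      refine sum_congr rfl fun i _ => sum_congr rfl fun v _ => sum_congr rfl fun j _ => ?_
      rw [hrs v i]; ring
    rw [h1]
    simp only [hpt, sum_add_distrib, sum_sub_distrib]
    rw [h2, h3]
    ring
  have hpos : 0 < ∑ v, z v * ∑ i, ∑ j, z i * r v i * (z j * r v j) *
      (1 - wc (α - 1) β R B i j) := by
    rw [hA]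
    have h1 : 0 ≤ ∑ v, ∑ i, ∑ j, z v * z i * z j * (r v i * (1 - r v j)) *
        wc (α - 1) β R B i j :=
      sum_nonneg fun v _ => sum_nonneg fun i _ => sum_nonneg fun j _ =>
        mul_nonneg (mul_nonneg (mul_nonneg (mul_nonneg (hz0 v) (hz0 i)) (hz0 j))
          (mul_nonneg (hr0 v i) (hr1 v j))) (hwc0 i j)
    have h2 : 0 < (1 - m) * (∑ u, ∑ v, z u * z v * r u v) := mul_pos (by linarith) hE
    linarith
  obtain ⟨v, -, hv⟩ := exists_lt_of_sum_lt (s := univ) (f := fun _ : Fin n => (0 : ℝ))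
    (g := fun v => z v * ∑ i, ∑ j, z i * r v i * (z j * r v j) *
      (1 - wc (α - 1) β R B i j)) (by simpa using hpos)
  have hzv : 0 < z v := by
    rcases (hz0 v).eq_or_lt with h0 | h0
    · rw [← h0] at hv; simp at hv
    · exact h0
  have hv' : 0 < ∑ i, ∑ j, z i * r v i * (z j * r v j) * (1 - wc (α - 1) β R B i j) :=
    pos_of_mul_pos_right hv hzv.le |> fun h => h
  obtain ⟨φ, hφ, hφE⟩ := h R B (fun i => z i * r v i) (fun i => mul_nonneg (hz0 i) (hr0 v i)) (by
    have h1 : (∑ i, z i * r v i) ^ 2 = ∑ i, ∑ j, z i * r v i * (z j * r v j) := by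
      rw [sq, sum_mul]
      exact sum_congr rfl fun i _ => mul_sum _ _ _
    rw [h1]
    have h2 : ∀ i j, z i * r v i * (z j * r v j) * (1 - wc (α - 1) β R B i j) =
        z i * r v i * (z j * r v j) - z i * r v i * (z j * r v j) * wc (α - 1) β R B i j := by
      intro i j; ring
    simp only [h2, sum_sub_distrib] at hv'
    linarith)
  have hφz : ∀ u, 0 < z (φ u) := fun u => by
    rcases (hz0 (φ u)).eq_or_lt with h0 | h0
    · have := hφ u; rw [← h0] at this; simp at this
    · exact h0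
  have hφr : ∀ u, R.Adj v (φ u) := fun u => by
    by_contra hn
    have := hφ u
    simp [hr, hn] at this
  have hne : ∀ u, φ u ≠ v := fun u h => (hφr u).ne h.symm
  have hself : w.insertNth (α := fun _ => Fin n) v φ w = v := Fin.insertNth_apply_same _ _ _
  have hsucc : ∀ i, w.insertNth (α := fun _ => Fin n) v φ (w.succAbove i) = φ i :=
    fun i => Fin.insertNth_apply_succAbove _ _ _ _
  refine ⟨⟨w.insertNth (α := fun _ => Fin n) v φ, fun a b hab => ?_⟩, fun u => ?_,
    fun a b hab => ?_⟩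
  · rcases Fin.eq_self_or_eq_succAbove w a with rfl | ⟨a, rfl⟩
    · rcases Fin.eq_self_or_eq_succAbove a b with rfl | ⟨b, rfl⟩
      · rfl
      · rw [hself, hsucc] at hab
        exact absurd hab.symm (hne b)
    · rcases Fin.eq_self_or_eq_succAbove w b with rfl | ⟨b, rfl⟩
      · rw [hself, hsucc] at hab
        exact absurd hab (hne a)
      · rw [hsucc, hsucc] at hab
        rw [φ.injective hab]
  · change 0 < x (w.insertNth (α := fun _ => Fin n) v φ u)
    rcases Fin.eq_self_or_eq_succAbove w u with rfl | ⟨u, rfl⟩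
    · rw [hself]; exact hzx _ hzv
    · rw [hsucc]; exact hzx _ (hφz u)
  · change (F.Adj a b → R.Adj (w.insertNth (α := fun _ => Fin n) v φ a)
      (w.insertNth (α := fun _ => Fin n) v φ b)) ∧ (¬ F.Adj a b →
      B.Adj (w.insertNth (α := fun _ => Fin n) v φ a) (w.insertNth (α := fun _ => Fin n) v φ b))
    rcases Fin.eq_self_or_eq_succAbove w a with rfl | ⟨a, rfl⟩
    · rcases Fin.eq_self_or_eq_succAbove a b with rfl | ⟨b, rfl⟩
      · exact absurd rfl hab
      · rw [hself, hsucc]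
        exact ⟨fun _ => hφr b, fun hn => absurd (hw _ (Fin.succAbove_ne _ _)) hn⟩
    · rcases Fin.eq_self_or_eq_succAbove w b with rfl | ⟨b, rfl⟩
      · rw [hself, hsucc]
        exact ⟨fun _ => (hφr a).symm, fun hn => absurd (hw _ (Fin.succAbove_ne _ _)).symm hn⟩
      · rw [hsucc, hsucc]
        have := hφE a b (fun h => hab (by rw [h]))
        rw [SimpleGraph.comap_adj] at this
        exact this

/-- **Adding an isolated vertex.** -/
theorem WT.isolated {k n : ℕ} {F : SimpleGraph (Fin (k + 1))} {α β : ℝ} (hα : 0 ≤ α)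
    (hβ : 1 ≤ β) (w : Fin (k + 1)) (hw : ∀ u, ¬ F.Adj w u)
    (h : WT n (F.comap w.succAbove) α (β - 1)) : WT n F α β := by
  have h1 : (F.comap w.succAbove)ᶜ = Fᶜ.comap w.succAbove := by
    ext a b
    simp [SimpleGraph.compl_adj]
  have h2 := h.compl
  rw [h1] at h2
  have h3 := (WT.dominating hβ hα w (fun u hu => by
    rw [SimpleGraph.compl_adj]; exact ⟨hu.symm, hw u⟩) h2).compl
  rwa [compl_compl] at h3

/-- the extension property of a minimiser -/
lemma ext_of_minimiser {V : Type*} [Fintype V] {c : V → V → ℝ} {z : V → ℝ} {m g : ℝ} (hm : m < g)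
    (hz0 : ∀ v, 0 ≤ z v) (hz1 : ∑ v, z v = 1) (hrow : ∀ i, 0 < z i → ∑ j, z j * c i j = m)
    (y : V → ℝ) (hy0 : ∀ v, ¬ 0 < z v → y v = 0) (hy : 0 < ∑ v, y v) :
    ∃ j, 0 < z j ∧ ∑ i, y i * c i j < (∑ i, y i) * g := by
  have key : ∑ j, z j * (∑ i, y i * c i j) = (∑ i, y i) * m := by
    have h1 : ∑ j, z j * (∑ i, y i * c i j) = ∑ i, y i * ∑ j, z j * c i j := by
      simp only [mul_sum]
      rw [sum_comm]
      refine sum_congr rfl fun i _ => sum_congr rfl fun j _ => by ring
    rw [h1, sum_mul]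
    refine sum_congr rfl fun i _ => ?_
    by_cases hi : 0 < z i
    · rw [hrow i hi]
    · rw [hy0 i hi]; ring
  have hlt : ∑ j, z j * (∑ i, y i * c i j) < ∑ j, z j * ((∑ i, y i) * g) := by
    rw [key, ← sum_mul, hz1, one_mul]
    exact mul_lt_mul_of_pos_left hm hy
  obtain ⟨j, -, hj⟩ := exists_lt_of_sum_lt hlt
  have hj0 : z j ≠ 0 := by
    intro h; rw [h] at hj; simp at hj
  have hjpos : 0 < z j := lt_of_le_of_ne (hz0 j) (Ne.symm hj0)
  exact ⟨j, hjpos, lt_of_mul_lt_mul_left hj hjpos.le⟩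

/-- **Flexible graphs.** -/
theorem WT.flexible {k n : ℕ} (hk : 2 ≤ k) (F : SimpleGraph (Fin k))
    (hflex : ∀ m ≤ k / 2, ∃ σ : Equiv.Perm (Fin k), cnt F σ = m) :
    WT n F (((k : ℝ) - 1) / 2) (((k : ℝ) - 1) / 2) := by
  classical
  intro R B x hx hQ
  have hk1 : (0 : ℝ) < (k : ℝ) - 1 := by
    have : (2 : ℝ) ≤ k := by exact_mod_cast hk
    linarith
  obtain ⟨z, m, hm, hz0, hz1, hzx, hrow⟩ := exists_minimiser _ wc_symm x hx hQ
  have hwc : ∀ u v, wc (((k : ℝ) - 1) / 2) (((k : ℝ) - 1) / 2) R B u v =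
      ((k : ℝ) - 1) * cost (1 / 2) R B u v := by
    intro u v
    simp only [wc, cost]
    split_ifs <;> ring
  set S : Finset (Fin n) := univ.filter fun v => 0 < z v with hS
  have hne : S.Nonempty := by
    by_contra h
    rw [not_nonempty_iff_eq_empty] at h
    have : ∀ v, z v = 0 := by
      intro v
      by_contra hv
      have h1 : 0 < z v := lt_of_le_of_ne (hz0 v) (Ne.symm hv)
      have h2 : v ∈ S := by rw [hS]; simp [h1]
      rw [h] at h2
      exact absurd h2 (notMem_empty v)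
    simp [this] at hz1
  have hSext : ∀ y : Fin n → ℝ, (∀ v, v ∉ S → y v = 0) → 0 < ∑ v, y v →
      ∃ j ∈ S, ∑ i, y i * cost (1 / 2) R B i j < (∑ i, y i) * (1 / ((k : ℝ) - 1)) := by
    intro y hy0 hy
    obtain ⟨j, hj, hlt⟩ := ext_of_minimiser hm hz0 hz1 hrow y
      (fun v hv => hy0 v (by simpa [hS] using hv)) hy
    refine ⟨j, by simpa [hS] using hj, ?_⟩
    simp only [hwc] at hlt
    have h1 : ∑ i, y i * (((k : ℝ) - 1) * cost (1 / 2) R B i j) =
        ((k : ℝ) - 1) * ∑ i, y i * cost (1 / 2) R B i j := by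
      rw [mul_sum]; exact sum_congr rfl fun i _ => by ring
    rw [h1, mul_one] at hlt
    rw [mul_one_div, lt_div_iff₀ hk1]
    linarith
  obtain ⟨T, hTS, hTk, hT⟩ := exists_good_set cost_symm cost_diag
    (cost_nonneg (by norm_num) (by norm_num)) hk hSext hne
  set e : Fin k ↪ Fin n := (T.equivFinOfCardEq hTk).symm.toEmbedding.trans
    (Function.Embedding.subtype _) with he
  have heT : ∀ x, e x ∈ T := fun x => ((T.equivFinOfCardEq hTk).symm x).2
  have hle : ∀ x y, x ≠ y → cost (1 / 2) R B (e y) (e x) ≤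
      ∑ i ∈ T.erase (e x), cost (1 / 2) R B i (e x) := fun x y hxy =>
    single_le_sum (f := fun i => cost (1 / 2) R B i (e x))
      (fun i _ => cost_nonneg (by norm_num) (by norm_num) _ _)
      (mem_erase.2 ⟨fun h => hxy (e.injective h).symm, heT y⟩)
  have hhalf : ∀ u v, ¬ (R.Adj u v ∧ B.Adj u v) → (1 / 2 : ℝ) ≤ cost (1 / 2) R B v u := by
    intro u v h
    rw [cost_symm]
    by_cases hR : R.Adj u v
    · have := cost_not_blue (p := 1 / 2) (R := R) (B := B) (by norm_num)
        (fun hB => h ⟨hR, hB⟩)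
      linarith
    · exact cost_not_red (by norm_num) hR
  have hrange : ∀ x, e x ∈ T := heT
  obtain ⟨φ, hφ, hφE⟩ := embed_of_good' R B F hflex e (fun x y hxy => by
    by_contra h
    push Not at h
    have h1 := hle x y hxy
    rw [cost_symm, cost_none h.1 h.2] at h1
    linarith [hT (e x) (heT x)]) (fun x y z hxy hxz hy hz => by
    by_contra hyz
    have h1 : cost (1 / 2) R B (e y) (e x) + cost (1 / 2) R B (e z) (e x) ≤
        ∑ i ∈ T.erase (e x), cost (1 / 2) R B i (e x) := by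
      have hne' : e y ≠ e z := fun h => hyz (e.injective h)
      rw [← sum_pair (f := fun i => cost (1 / 2) R B i (e x)) hne']
      apply sum_le_sum_of_subset_of_nonneg
      · intro i hi
        rw [mem_insert, mem_singleton] at hi
        rcases hi with rfl | rfl
        · exact mem_erase.2 ⟨fun h => hxy (e.injective h).symm, heT y⟩
        · exact mem_erase.2 ⟨fun h => hxz (e.injective h).symm, heT z⟩
      · exact fun i _ _ => cost_nonneg (by norm_num) (by norm_num) _ _
    have h2 := hhalf _ _ hy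
    have h3 := hhalf _ _ hz
    linarith [hT (e x) (heT x)])
  refine ⟨φ, fun u => hzx _ ?_, hφE⟩
  obtain ⟨x, hx⟩ := hφ u
  have : φ u ∈ S := by rw [← hx]; exact hTS (heT x)
  simpa [hS] using this

/-- **From the weighted property to the Turan-type bound**, weighted form. -/
theorem WT.bound {k n : ℕ} (hk : 2 ≤ k) (F : SimpleGraph (Fin k)) {α β : ℝ}
    (hαβ : α + β = (k : ℝ) - 1) (h : WT n F α β) (R B : SimpleGraph (Fin n))
    (hfree : ¬ ∃ φ : Fin k ↪ Fin n, IsEmb F R B φ) :
    α / ((k : ℝ) - 1) * (R.edgeSet.ncard : ℝ) + (1 - α / ((k : ℝ) - 1)) * B.edgeSet.ncard ≤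
      (1 - 1 / ((k : ℝ) - 1)) * (n : ℝ) ^ 2 / 2 := by
  classical
  by_contra hlt
  rw [not_le] at hlt
  apply hfree
  have hk1 : (0 : ℝ) < (k : ℝ) - 1 := by
    have : (2 : ℝ) ≤ k := by exact_mod_cast hk
    linarith
  obtain ⟨φ, -, hφ⟩ := h R B (fun _ => 1) (fun _ => zero_le_one) (by
    have h1 : ∀ u v, wc α β R B u v = ((k : ℝ) - 1) * cost (α / ((k : ℝ) - 1)) R B u v := by
      intro u v
      have h2 : β = ((k : ℝ) - 1) - α := by linarith
      simp only [wc, cost]
      rw [h2]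
      split_ifs <;> field_simp <;> ring
    simp only [one_mul, h1, ← mul_sum]
    rw [sum_cost]
    simp only [sum_const, card_univ, Fintype.card_fin, nsmul_eq_mul, mul_one]
    have h4 : ((k : ℝ) - 1) * (2 * ((1 - 1 / ((k : ℝ) - 1)) * (n : ℝ) ^ 2 / 2)) =
        ((k : ℝ) - 1) * (n : ℝ) ^ 2 - (n : ℝ) ^ 2 := by
      field_simp
    have h5 := mul_lt_mul_of_pos_left (mul_lt_mul_of_pos_left hlt (by norm_num : (0:ℝ) < 2)) hk1
    rw [h4] at h5
    nlinarith [h5])
  exact ⟨φ, hφ⟩

/-- the minimum is at most a weighted mean -/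
lemma min_le_of_weighted {p a b c : ℝ} (h0 : 0 ≤ p) (h1 : p ≤ 1) (h : p * a + (1 - p) * b ≤ c) :
    min a b ≤ c := by
  by_contra hlt
  rw [not_le, lt_min_iff] at hlt
  nlinarith [mul_nonneg h0 (sub_nonneg.2 hlt.1.le), mul_nonneg (sub_nonneg.2 h1)
    (sub_nonneg.2 hlt.2.le)]

end Pool.Agent.Y781.DM
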