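import Mathlib
import Pool.Agent.Y781.DMWeight

/-!
# The class of admissible graphs, and the Diwan-Mubayi inequality for them
-/

namespace Pool.Agent.Y781.DM

/-- A two-coloured multigraph on `Fin n` is a pair `R`, `B` of simple graphs (red, blue). The
two-coloured complete graph `H` with red graph `F` and blue graph the complement of `F` is contained
in it if there is an injection taking edges of `F` to red pairs and non-edges of `F` to blue
pairs. -/
def Contains {k n : ℕ} (F : SimpleGraph (Fin k)) (R B : SimpleGraph (Fin n)) : Prop :=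
  ∃ φ : Fin k ↪ Fin n, ∀ u v, u ≠ v →
    (F.Adj u v → R.Adj (φ u) (φ v)) ∧ (¬ F.Adj u v → B.Adj (φ u) (φ v))

/-- There are `k / 2` (rounded down) pairwise disjoint pairs of vertices of `F`, exactly `m` of
which are edges of `F`; the other ones are non-edges. -/
def HasPairing {k : ℕ} (F : SimpleGraph (Fin k)) (m : ℕ) : Prop :=
  ∃ a b : Fin (k / 2) → Fin k, Function.Injective (Sum.elim a b) ∧
    {i | F.Adj (a i) (b i)}.ncard = m

/-- The class of red graphs `F` generated by the one-vertex graph, the graphs with suitable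
pairings, and the addition of a dominating or of an isolated vertex. -/
inductive Admissible : {k : ℕ} → SimpleGraph (Fin k) → Prop
  | single (F : SimpleGraph (Fin 1)) : Admissible F
  | pairing {k : ℕ} (hk : 2 ≤ k) (F : SimpleGraph (Fin k))
      (h : ∀ m ≤ k / 2, m = 0 ∨ m = k / 2 ∨ Even k → HasPairing F m) : Admissible F
  | dominating {k : ℕ} (F : SimpleGraph (Fin (k + 1))) (w : Fin (k + 1))
      (hw : ∀ u, u ≠ w → F.Adj w u) (h : Admissible (F.comap w.succAbove)) : Admissible F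
  | isolated {k : ℕ} (F : SimpleGraph (Fin (k + 1))) (w : Fin (k + 1))
      (hw : ∀ u, ¬ F.Adj w u) (h : Admissible (F.comap w.succAbove)) : Admissible F

lemma exists_weights {k : ℕ} {F : SimpleGraph (Fin k)} (h : Admissible F) :
    1 ≤ k ∧ ∃ α β : ℝ, 0 ≤ α ∧ 0 ≤ β ∧ α + β = (k : ℝ) - 1 ∧ ∀ n, WT n F α β := by
  classical
  induction h with
  | single F => exact ⟨le_rfl, 0, 0, le_rfl, le_rfl, by norm_num, fun n => WT.one n F⟩
  | @pairing k hk F h =>
    have hk2 : (2 : ℝ) ≤ k := by exact_mod_cast hk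
    refine ⟨by omega, ((k : ℝ) - 1) / 2, ((k : ℝ) - 1) / 2, by linarith, by linarith, by ring,
      fun n => WT.flexible hk F (flexible F ?_ ?_ ?_)⟩
    · obtain ⟨a, b, hi, hc⟩ := h (k / 2) le_rfl (Or.inr (Or.inl rfl))
      refine ⟨a, b, hi, fun i => ?_⟩
      have h1 : {i | F.Adj (a i) (b i)} = Set.univ := by
        apply Set.eq_of_subset_of_ncard_le (Set.subset_univ _) _ (Set.toFinite _)
        rw [hc, Set.ncard_univ, Nat.card_eq_fintype_card, Fintype.card_fin]
      have h2 : i ∈ {i | F.Adj (a i) (b i)} := by rw [h1]; trivial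
      exact h2
    · obtain ⟨a, b, hi, hc⟩ := h 0 (Nat.zero_le _) (Or.inl rfl)
      refine ⟨a, b, hi, fun i hF => ?_⟩
      rw [Set.ncard_eq_zero (Set.toFinite _)] at hc
      have h2 : i ∈ {i | F.Adj (a i) (b i)} := hF
      rw [hc] at h2
      exact h2
    · intro he m _ hm
      exact h m hm.le (Or.inr (Or.inr he))
  | @dominating k F w hw h ih =>
    obtain ⟨hk, α, β, hα, hβ, hαβ, hWT⟩ := ih
    refine ⟨by omega, α + 1, β, by linarith, hβ, by push_cast; linarith, fun n => ?_⟩
    refine WT.dominating (by linarith) hβ w hw ?_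
    rw [add_sub_cancel_right]
    exact hWT n
  | @isolated k F w hw h ih =>
    obtain ⟨hk, α, β, hα, hβ, hαβ, hWT⟩ := ih
    refine ⟨by omega, α, β + 1, hα, by linarith, by push_cast; linarith, fun n => ?_⟩
    refine WT.isolated hα (by linarith) w hw ?_
    rw [add_sub_cancel_right]
    exact hWT n

/-- **Main theorem.** For every admissible `F` on `k` vertices there is `p` in `[0, 1]` such that
every two-coloured multigraph `(R, B)` of order `n` which does not contain `H` satisfies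
`p e(R) + (1 - p) e(B) ≤ (1 - 1 / (k - 1)) n ^ 2 / 2`, and hence the same bound holds for
`min (e(R)) (e(B))`. -/
theorem main {k : ℕ} (hk : 2 ≤ k) (F : SimpleGraph (Fin k)) (hF : Admissible F) :
    (∃ p : ℝ, 0 ≤ p ∧ p ≤ 1 ∧ ∀ (n : ℕ) (R B : SimpleGraph (Fin n)), ¬ Contains F R B →
      p * (R.edgeSet.ncard : ℝ) + (1 - p) * B.edgeSet.ncard ≤
        (1 - 1 / ((k : ℝ) - 1)) * (n : ℝ) ^ 2 / 2) ∧
    ∀ (n : ℕ) (R B : SimpleGraph (Fin n)), ¬ Contains F R B →
      min (R.edgeSet.ncard : ℝ) B.edgeSet.ncard ≤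
        (1 - 1 / ((k : ℝ) - 1)) * (n : ℝ) ^ 2 / 2 := by
  obtain ⟨-, α, β, hα, hβ, hαβ, hWT⟩ := exists_weights hF
  have hk1 : (0 : ℝ) < (k : ℝ) - 1 := by
    have : (2 : ℝ) ≤ k := by exact_mod_cast hk
    linarith
  have hp0 : 0 ≤ α / ((k : ℝ) - 1) := div_nonneg hα hk1.le
  have hp1 : α / ((k : ℝ) - 1) ≤ 1 := by
    rw [div_le_one hk1]; linarith
  have key : ∀ (n : ℕ) (R B : SimpleGraph (Fin n)), ¬ Contains F R B →
      α / ((k : ℝ) - 1) * (R.edgeSet.ncard : ℝ) + (1 - α / ((k : ℝ) - 1)) * B.edgeSet.ncard ≤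
        (1 - 1 / ((k : ℝ) - 1)) * (n : ℝ) ^ 2 / 2 := fun n R B hfree =>
    (hWT n).bound hk F hαβ R B hfree
  exact ⟨⟨_, hp0, hp1, key⟩, fun n R B hfree =>
    min_le_of_weighted hp0 hp1 (key n R B hfree)⟩

end Pool.Agent.Y781.DM
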