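import Mathlib
import Pool.Agent.Y781.DMAdm

/-!
# Admissibility of small graphs
-/

namespace Pool.Agent.Y781.DM.Small

open Pool.Agent.Y781.DM

/-- the three pairings of four points -/
def P4 : List (Fin 4 × Fin 4 × Fin 4 × Fin 4) := [(0, 1, 2, 3), (0, 2, 1, 3), (0, 3, 1, 2)]

/-- the fifteen ways to choose two disjoint pairs among five points -/
def P5 : List (Fin 5 × Fin 5 × Fin 5 × Fin 5) :=
  [(0, 1, 2, 3), (0, 2, 1, 3), (0, 3, 1, 2), (0, 1, 2, 4), (0, 2, 1, 4), (0, 4, 1, 2),
   (0, 1, 3, 4), (0, 3, 1, 4), (0, 4, 1, 3), (0, 2, 3, 4), (0, 3, 2, 4), (0, 4, 2, 3),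
   (1, 2, 3, 4), (1, 3, 2, 4), (1, 4, 2, 3)]

/-- adjacency matrix of a graph on four points -/
def M4 (a b c d e f : Bool) (i j : Fin 4) : Bool :=
  match i, j with
  | 0, 1 => a | 1, 0 => a
  | 0, 2 => b | 2, 0 => b
  | 0, 3 => c | 3, 0 => c
  | 1, 2 => d | 2, 1 => d
  | 1, 3 => e | 3, 1 => e
  | 2, 3 => f | 3, 2 => f
  | _, _ => false

/-- adjacency matrix of a graph on five points -/
def M5 (a b c d e f g h p q : Bool) (i j : Fin 5) : Bool :=
  match i, j with
  | 0, 1 => a | 1, 0 => a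
  | 0, 2 => b | 2, 0 => b
  | 0, 3 => c | 3, 0 => c
  | 1, 2 => d | 2, 1 => d
  | 1, 3 => e | 3, 1 => e
  | 2, 3 => f | 3, 2 => f
  | 0, 4 => g | 4, 0 => g
  | 1, 4 => h | 4, 1 => h
  | 2, 4 => p | 4, 2 => p
  | 3, 4 => q | 4, 3 => q
  | _, _ => false

lemma M4_eq (F : SimpleGraph (Fin 4)) [DecidableRel F.Adj] :
    M4 (F.Adj 0 1) (F.Adj 0 2) (F.Adj 0 3) (F.Adj 1 2) (F.Adj 1 3) (F.Adj 2 3) =
      fun i j => decide (F.Adj i j) := by
  funext i j
  fin_cases i <;> fin_cases j <;>
    first | (simp [M4]; done) | exact decide_eq_decide.2 (F.adj_comm _ _)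

lemma M5_eq (F : SimpleGraph (Fin 5)) [DecidableRel F.Adj] :
    M5 (F.Adj 0 1) (F.Adj 0 2) (F.Adj 0 3) (F.Adj 1 2) (F.Adj 1 3) (F.Adj 2 3)
      (F.Adj 0 4) (F.Adj 1 4) (F.Adj 2 4) (F.Adj 3 4) =
      fun i j => decide (F.Adj i j) := by
  funext i j
  fin_cases i <;> fin_cases j <;>
    first | (simp [M5]; done) | exact decide_eq_decide.2 (F.adj_comm _ _)

/-- the matrix `A` has a dominating or an isolated vertex -/
def hasDI {k : ℕ} (A : Fin k → Fin k → Bool) : Bool :=
  (List.finRange k).any fun w =>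
    ((List.finRange k).all fun u => u == w || A w u) || ((List.finRange k).all fun u => !A w u)

/-- pairings of the four points with zero, one and two edges -/
def flex4 (A : Fin 4 → Fin 4 → Bool) : Bool :=
  (P4.any fun t => A t.1 t.2.1 && A t.2.2.1 t.2.2.2) &&
  (P4.any fun t => !A t.1 t.2.1 && !A t.2.2.1 t.2.2.2) &&
  (P4.any fun t => A t.1 t.2.1 ^^ A t.2.2.1 t.2.2.2)

/-- two disjoint edges -/
def flex5 (A : Fin 5 → Fin 5 → Bool) : Bool :=
  (P5.any fun t => A t.1 t.2.1 && A t.2.2.1 t.2.2.2) &&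
  (P5.any fun t => !A t.1 t.2.1 && !A t.2.2.1 t.2.2.2)

/-- the partner map of a perfect matching of four points -/
def partner (t : Fin 4 × Fin 4 × Fin 4 × Fin 4) (i : Fin 4) : Fin 4 :=
  if i = t.1 then t.2.1 else if i = t.2.1 then t.1 else
    if i = t.2.2.1 then t.2.2.2 else t.2.2.1

/-- the graph is a perfect matching -/
def isMatching4 (A : Fin 4 → Fin 4 → Bool) : Bool :=
  P4.any fun t => (List.finRange 4).all fun i => (List.finRange 4).all fun j =>
    A i j == (j == partner t i)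

/-- admissible, on four points -/
def adm4 (A : Fin 4 → Fin 4 → Bool) : Bool := hasDI A || flex4 A

/-- admissible, on five points -/
def adm5 (A : Fin 5 → Fin 5 → Bool) : Bool :=
  flex5 A || (List.finRange 5).any fun w =>
    (((List.finRange 5).all fun u => u == w || A w u) ||
      ((List.finRange 5).all fun u => !A w u)) &&
      adm4 fun i j => A (w.succAbove i) (w.succAbove j)

lemma check4 : ∀ a b c d e f : Bool,
    (adm4 (M4 a b c d e f) || isMatching4 (M4 a b c d e f) ||
      isMatching4 (fun i j => (i != j) && !(M4 a b c d e f i j))) = true := by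
  decide

set_option maxRecDepth 100000 in
lemma check5 : ∀ a b c d e f g h p q : Bool,
    adm5 (M5 a b c d e f g h p q) = true := by
  decide

/-- translation of the boolean test -/
lemma hasDI_sound {k : ℕ} (F : SimpleGraph (Fin k)) [DecidableRel F.Adj]
    (h : hasDI (fun i j => decide (F.Adj i j)) = true) :
    ∃ w, (∀ u, u ≠ w → F.Adj w u) ∨ ∀ u, ¬ F.Adj w u := by
  simp only [hasDI, List.any_eq_true, List.mem_finRange, true_and, Bool.or_eq_true,
    List.all_eq_true, forall_const, beq_iff_eq, decide_eq_true_eq, Bool.not_eq_true',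
    decide_eq_false_iff_not] at h
  obtain ⟨w, h | h⟩ := h
  · exact ⟨w, Or.inl fun u hu => (h u).resolve_left hu⟩
  · exact ⟨w, Or.inr h⟩

lemma adm_of_di {k : ℕ} (F : SimpleGraph (Fin (k + 1))) (w : Fin (k + 1))
    (h : (∀ u, u ≠ w → F.Adj w u) ∨ ∀ u, ¬ F.Adj w u)
    (ha : Admissible (F.comap w.succAbove)) : Admissible F := by
  rcases h with h | h
  · exact Admissible.dominating F w h ha
  · exact Admissible.isolated F w h ha

lemma adm2 (F : SimpleGraph (Fin 2)) : Admissible F := by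
  refine adm_of_di F 0 ?_ (Admissible.single _)
  by_cases h : F.Adj 0 1
  · left
    intro u hu
    fin_cases u
    · exact absurd rfl hu
    · exact h
  · right
    intro u
    fin_cases u
    · exact F.loopless.irrefl 0
    · exact h

lemma adm3 (F : SimpleGraph (Fin 3)) : Admissible F := by
  have key : ∃ w : Fin 3, (∀ u, u ≠ w → F.Adj w u) ∨ ∀ u, ¬ F.Adj w u := by
    by_cases h01 : F.Adj 0 1 <;> by_cases h02 : F.Adj 0 2 <;> by_cases h12 : F.Adj 1 2
    · exact ⟨0, Or.inl (by intro u hu; fin_cases u <;> simp_all)⟩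
    · exact ⟨0, Or.inl (by intro u hu; fin_cases u <;> simp_all)⟩
    · exact ⟨1, Or.inl (by intro u hu; fin_cases u <;> simp_all [F.adj_comm])⟩
    · exact ⟨2, Or.inr (by intro u; fin_cases u <;> simp_all [F.adj_comm])⟩
    · exact ⟨2, Or.inl (by intro u hu; fin_cases u <;> simp_all [F.adj_comm])⟩
    · exact ⟨1, Or.inr (by intro u; fin_cases u <;> simp_all [F.adj_comm])⟩
    · exact ⟨0, Or.inr (by intro u; fin_cases u <;> simp_all)⟩
    · exact ⟨0, Or.inr (by intro u; fin_cases u <;> simp_all)⟩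
  obtain ⟨w, hw⟩ := key
  exact adm_of_di F w hw (adm2 _)

lemma ncard_two (p : Fin 2 → Prop) [DecidablePred p] :
    {i | p i}.ncard = (if p 0 then 1 else 0) + (if p 1 then 1 else 0) := by
  rw [← Finset.coe_filter_univ, Set.ncard_coe_finset, Finset.card_filter, Fin.sum_univ_two]

set_option maxRecDepth 100000 in
lemma P4_inj : ∀ t ∈ P4, Function.Injective
    (Sum.elim (![t.1, t.2.2.1] : Fin 2 → Fin 4) ![t.2.1, t.2.2.2]) := by
  decide

set_option maxRecDepth 100000 in
lemma P5_inj : ∀ t ∈ P5, Function.Injective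
    (Sum.elim (![t.1, t.2.2.1] : Fin 2 → Fin 5) ![t.2.1, t.2.2.2]) := by
  decide

lemma pairing4 (F : SimpleGraph (Fin 4)) [DecidableRel F.Adj] {t : Fin 4 × Fin 4 × Fin 4 × Fin 4}
    (ht : t ∈ P4) {m : ℕ}
    (h : (if F.Adj t.1 t.2.1 then 1 else 0) + (if F.Adj t.2.2.1 t.2.2.2 then 1 else 0) = m) :
    HasPairing F m :=
  ⟨(![t.1, t.2.2.1] : Fin 2 → Fin 4), (![t.2.1, t.2.2.2] : Fin 2 → Fin 4), P4_inj t ht,
    by rw [← h]; exact ncard_two _⟩

lemma pairing5 (F : SimpleGraph (Fin 5)) [DecidableRel F.Adj] {t : Fin 5 × Fin 5 × Fin 5 × Fin 5}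
    (ht : t ∈ P5) {m : ℕ}
    (h : (if F.Adj t.1 t.2.1 then 1 else 0) + (if F.Adj t.2.2.1 t.2.2.2 then 1 else 0) = m) :
    HasPairing F m :=
  ⟨(![t.1, t.2.2.1] : Fin 2 → Fin 5), (![t.2.1, t.2.2.2] : Fin 2 → Fin 5), P5_inj t ht,
    by rw [← h]; exact ncard_two _⟩

lemma flex4_sound (F : SimpleGraph (Fin 4)) [DecidableRel F.Adj]
    (h : flex4 (fun i j => decide (F.Adj i j)) = true) : Admissible F := by
  simp only [flex4, Bool.and_eq_true, List.any_eq_true, decide_eq_true_eq, Bool.not_eq_true',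
    decide_eq_false_iff_not] at h
  obtain ⟨⟨⟨t, ht, h1, h2⟩, t', ht', h3, h4⟩, t'', ht'', h5⟩ := h
  refine Admissible.pairing (by norm_num) F fun m hm _ => ?_
  have hm' : m ≤ 2 := hm
  interval_cases m
  · exact pairing4 F ht' (by simp [h3, h4])
  · refine pairing4 F ht'' ?_
    by_cases h6 : F.Adj t''.1 t''.2.1 <;> by_cases h7 : F.Adj t''.2.2.1 t''.2.2.2 <;>
      simp [h6, h7] at h5 ⊢
  · exact pairing4 F ht (by simp [h1, h2])

lemma flex5_sound (F : SimpleGraph (Fin 5)) [DecidableRel F.Adj]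
    (h : flex5 (fun i j => decide (F.Adj i j)) = true) : Admissible F := by
  simp only [flex5, Bool.and_eq_true, List.any_eq_true, decide_eq_true_eq, Bool.not_eq_true',
    decide_eq_false_iff_not] at h
  obtain ⟨⟨t, ht, h1, h2⟩, t', ht', h3, h4⟩ := h
  refine Admissible.pairing (by norm_num) F fun m hm hm2 => ?_
  have hm' : m = 0 ∨ m = 2 := by
    rcases hm2 with h | h | h
    · exact Or.inl h
    · exact Or.inr h
    · exact absurd h (by decide)
  rcases hm' with rfl | rfl
  · exact pairing5 F ht' (by simp [h3, h4])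
  · exact pairing5 F ht (by simp [h1, h2])

lemma adm4_sound (F : SimpleGraph (Fin 4)) [DecidableRel F.Adj]
    (h : adm4 (fun i j => decide (F.Adj i j)) = true) : Admissible F := by
  rw [adm4, Bool.or_eq_true] at h
  rcases h with h | h
  · obtain ⟨w, hw⟩ := hasDI_sound F h
    exact adm_of_di F w hw (adm3 _)
  · exact flex4_sound F h

lemma adm5_sound (F : SimpleGraph (Fin 5)) [DecidableRel F.Adj]
    (h : adm5 (fun i j => decide (F.Adj i j)) = true) : Admissible F := by
  classical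
  rw [adm5, Bool.or_eq_true] at h
  rcases h with h | h
  · exact flex5_sound F h
  · simp only [List.any_eq_true, List.mem_finRange, true_and, Bool.or_eq_true, Bool.and_eq_true,
      List.all_eq_true, forall_const, beq_iff_eq, decide_eq_true_eq, Bool.not_eq_true',
      decide_eq_false_iff_not] at h
    obtain ⟨w, h, ha⟩ := h
    refine adm_of_di F w ?_ (adm4_sound _ ?_)
    · rcases h with h | h
      · exact Or.inl fun u hu => (h u).resolve_left hu
      · exact Or.inr h
    · exact ha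

/-- all graphs on five vertices are admissible -/
theorem adm_five (F : SimpleGraph (Fin 5)) : Admissible F := by
  classical
  apply adm5_sound F
  rw [← M5_eq F]
  exact check5 _ _ _ _ _ _ _ _ _ _

/-- every connected component is a balanced complete bipartite graph -/
def BBC {k : ℕ} (F : SimpleGraph (Fin k)) : Prop :=
  ∀ c : F.ConnectedComponent, ∃ s : ℕ, 1 ≤ s ∧
    Nonempty (F.induce c.supp ≃g completeBipartiteGraph (Fin s) (Fin s))

lemma bbc_of_matching {k : ℕ} (F : SimpleGraph (Fin k)) (f : Fin k → Fin k)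
    (hf : ∀ u v, F.Adj u v ↔ v = f u) : BBC F := by
  classical
  have hff : ∀ u, f (f u) = u := fun u => ((hf (f u) u).1 ((hf u (f u)).2 rfl).symm).symm
  have hne : ∀ u, f u ≠ u := fun u h => ((hf u (f u)).2 rfl).ne h.symm
  intro c
  obtain ⟨u, rfl⟩ := c.exists_rep
  have hreach : ∀ v, F.Reachable u v → v = u ∨ v = f u := by
    intro v hv
    obtain ⟨w⟩ := hv
    induction w with
    | nil => exact Or.inl rfl
    | cons hadj _ ih =>
      rw [hf] at hadj
      subst hadj
      rcases ih with h | h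
      · exact Or.inr h
      · rw [hff] at h; exact Or.inl h
  have hsupp : ∀ v, v ∈ (F.connectedComponentMk u).supp ↔ v = u ∨ v = f u := by
    intro v
    rw [SimpleGraph.ConnectedComponent.mem_supp_iff, SimpleGraph.ConnectedComponent.eq]
    constructor
    · intro h; exact hreach v h.symm
    · rintro (rfl | rfl)
      · exact SimpleGraph.Reachable.refl _
      · exact (SimpleGraph.Adj.reachable ((hf _ _).2 rfl)).symm
  refine ⟨1, le_rfl, ⟨?_⟩⟩
  refine
    { toFun := fun x => if (x : Fin k) = u then Sum.inl 0 else Sum.inr 0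
      invFun := fun y => Sum.elim (fun _ => ⟨u, (hsupp u).2 (Or.inl rfl)⟩)
        (fun _ => ⟨f u, (hsupp _).2 (Or.inr rfl)⟩) y
      left_inv := ?_
      right_inv := ?_
      map_rel_iff' := ?_ }
  · rintro ⟨x, hx⟩
    rcases (hsupp x).1 hx with rfl | rfl
    · simp
    · simp [hne]
  · rintro (y | y)
    · simp [Subsingleton.elim y 0]
    · simp [hne, Subsingleton.elim y 0]
  · rintro ⟨x, hx⟩ ⟨y, hy⟩
    change (completeBipartiteGraph (Fin 1) (Fin 1)).Adj (if x = u then Sum.inl 0 else Sum.inr 0)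
      (if y = u then Sum.inl 0 else Sum.inr 0) ↔ F.Adj x y
    rw [hf]
    rcases (hsupp x).1 hx with rfl | rfl <;> rcases (hsupp y).1 hy with rfl | rfl
    · simp [(hne _).symm]
    · simp [hne]
    · simp [hne, hff]
    · simp [hne, hff]

lemma matching4_sound (A : Fin 4 → Fin 4 → Bool) (F : SimpleGraph (Fin 4))
    (hA : ∀ i j, A i j = true ↔ F.Adj i j) (h : isMatching4 A = true) : BBC F := by
  simp only [isMatching4, List.any_eq_true, List.all_eq_true, List.mem_finRange, forall_const,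
    beq_iff_eq] at h
  obtain ⟨t, -, h⟩ := h
  refine bbc_of_matching F (partner t) fun u v => ?_
  rw [← hA, h u v, beq_iff_eq]

/-- graphs on four vertices -/
theorem adm_four (F : SimpleGraph (Fin 4)) : Admissible F ∨ BBC F ∨ BBC Fᶜ := by
  classical
  have h := check4 (F.Adj 0 1) (F.Adj 0 2) (F.Adj 0 3) (F.Adj 1 2) (F.Adj 1 3) (F.Adj 2 3)
  rw [M4_eq F, Bool.or_eq_true, Bool.or_eq_true] at h
  rcases h with (h | h) | h
  · exact Or.inl (adm4_sound F h)
  · exact Or.inr (Or.inl (matching4_sound _ F (fun i j => by simp) h))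
  · refine Or.inr (Or.inr (matching4_sound _ Fᶜ (fun i j => ?_) h))
    simp [SimpleGraph.compl_adj]

end Pool.Agent.Y781.DM.Small
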